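import Pool.Agent.WRL.Affine

set_option autoImplicit false

/-!
# The affine map and its projection of the forms
-/

namespace Pool.Agent.WRL

open Module

variable {E : Type} [AddCommGroup E] [Module (ZMod 2) E] [FiniteDimensional (ZMod 2) E]

/-- If `W` and `G` are disjoint spaces of linear forms, `finrank W ≤ r` and
`finrank G ≤ finrank E - r` then there are a linear map `L` on `E` and a linear map `p` on the
forms: the kernel of `L` has the dimension `finrank E - r`, the forms of `W` are fixed by `p`, the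
forms of `G` are killed, and `φ ∘ L = p φ`. -/
theorem exists_proj {W G : Submodule (ZMod 2) (Dual (ZMod 2) E)} (hd : Disjoint W G) {r : ℕ}
    (hW : finrank (ZMod 2) W ≤ r) (hG : finrank (ZMod 2) G + r ≤ finrank (ZMod 2) E) :
    ∃ (L : E →ₗ[ZMod 2] E) (p : Dual (ZMod 2) E →ₗ[ZMod 2] Dual (ZMod 2) E),
      finrank (ZMod 2) (LinearMap.ker L) + r = finrank (ZMod 2) E ∧
      (∀ w ∈ W, p w = w) ∧ (∀ g ∈ G, p g = 0) ∧ ∀ φ x, φ (L x) = (p φ) x := by
  have hdim : finrank (ZMod 2) (Dual (ZMod 2) E) = finrank (ZMod 2) E :=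
    Subspace.dual_finrank_eq
  obtain ⟨W', hle, hdis, hfin⟩ := exists_extend hd (r - finrank (ZMod 2) W) (by omega)
  have hfin' : finrank (ZMod 2) W' = r := by omega
  obtain ⟨G', hGG, hc'⟩ := hdis.symm.exists_isCompl
  have hc := hc'.symm
  set p : Dual (ZMod 2) E →ₗ[ZMod 2] Dual (ZMod 2) E :=
    W'.subtype ∘ₗ Submodule.projectionOnto W' G' hc with hp
  have hpW : ∀ w ∈ W', p w = w := by
    intro w hw
    rw [hp, LinearMap.comp_apply, Submodule.projectionOnto_apply_left hc ⟨w, hw⟩]
    rfl
  have hpG : ∀ g ∈ G', p g = 0 := by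
    intro g hg
    rw [hp, LinearMap.comp_apply, (Submodule.projectionOnto_apply_eq_zero_iff hc).2 hg, map_zero]
  have hpr : ∀ φ, p φ ∈ W' := fun φ => (Submodule.projectionOnto W' G' hc φ).2
  set L : E →ₗ[ZMod 2] E := (Module.evalEquiv (ZMod 2) E).symm.toLinearMap ∘ₗ
    p.dualMap ∘ₗ (Module.evalEquiv (ZMod 2) E).toLinearMap with hL
  have key : ∀ (φ : Dual (ZMod 2) E) (x : E), φ (L x) = (p φ) x := by
    intro φ x
    have h1 : φ (L x) = (Module.evalEquiv (ZMod 2) E (L x)) φ := rfl
    rw [h1, hL]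
    simp only [LinearMap.comp_apply, LinearEquiv.coe_coe, LinearEquiv.apply_symm_apply]
    rfl
  have hker : LinearMap.ker L = W'.dualCoannihilator := by
    ext x
    rw [LinearMap.mem_ker, Submodule.mem_dualCoannihilator]
    constructor
    · intro hx w hw
      rw [← hpW w hw, ← key, hx, map_zero]
    · intro hx
      rw [← Module.forall_dual_apply_eq_zero_iff (ZMod 2)]
      intro φ
      rw [key]
      exact hx _ (hpr φ)
  refine ⟨L, p, ?_, fun w hw => hpW w (hle hw), fun g hg => hpG g (hGG hg), key⟩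
  rw [hker]
  have := Subspace.finrank_add_finrank_dualCoannihilator_eq W'
  omega

end Pool.Agent.WRL
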