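import Pool.Agent.WRL.Cells

set_option autoImplicit false

/-!
# Covering a set by cells of small codimension

If every point of a set has a cell of codimension at most `k`, then the set is covered by at most
`∑ i ≤ k, N.choose i` of these cells: the indicator functions of the cells are polynomials of degree
at most `k`, and the cells of a greedy cover are linearly independent.
-/

namespace Pool.Agent.WRL

open Module Finset

variable {E : Type} [AddCommGroup E] [Module (ZMod 2) E] [Fintype E]

section

variable {N : ℕ} (e : Fin N → Dual (ZMod 2) E)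

/-- The product of some forms. -/
def mono (S : Finset (Fin N)) (x : E) : ZMod 2 := ∏ i ∈ S, e i x

/-- The functions of degree at most `k`. -/
def polys (k : ℕ) : Submodule (ZMod 2) (E → ZMod 2) :=
  Submodule.span (ZMod 2) (Set.range fun S : {S : Finset (Fin N) // S.card ≤ k} => mono e S.1)

omit [Fintype E] in
lemma mono_mem {k : ℕ} {S : Finset (Fin N)} (h : S.card ≤ k) : mono e S ∈ polys e k :=
  Submodule.subset_span ⟨⟨S, h⟩, rfl⟩

omit [Fintype E] in
lemma mul_mono (i : Fin N) (S : Finset (Fin N)) (x : E) :
    e i x * mono e S x = mono e (insert i S) x := by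
  have hsq : ∀ a : ZMod 2, a * a = a := by decide
  by_cases hi : i ∈ S
  · rw [insert_eq_of_mem hi, mono, ← mul_prod_erase S _ hi, ← mul_assoc, hsq]
  · rw [mono, mono, prod_insert hi]

omit [Fintype E] in
lemma polys_mul {k : ℕ} (he : Submodule.span (ZMod 2) (Set.range e) = ⊤) (c : ZMod 2)
    (l : Dual (ZMod 2) E) {g : E → ZMod 2} (hg : g ∈ polys e k) :
    (fun x => (c + l x) * g x) ∈ polys e (k + 1) := by
  have hl : l ∈ Submodule.span (ZMod 2) (Set.range e) := by rw [he]; trivial
  induction hg using Submodule.span_induction with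
  | mem g hg =>
    obtain ⟨⟨S, hS⟩, rfl⟩ := hg
    have h1 : (fun x => c * mono e S x) ∈ polys e (k + 1) := by
      have h2 : (fun x => c * mono e S x) = c • mono e S := rfl
      rw [h2]
      exact Submodule.smul_mem _ _ (mono_mem e (hS.trans (Nat.le_succ k)))
    have h3 : (fun x => l x * mono e S x) ∈ polys e (k + 1) := by
      induction hl using Submodule.span_induction with
      | mem l hl =>
        obtain ⟨i, rfl⟩ := hl
        have h4 : (fun x => e i x * mono e S x) = mono e (insert i S) :=
          funext fun x => mul_mono e i S x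
        rw [h4]
        exact mono_mem e ((card_insert_le _ _).trans (Nat.succ_le_succ hS))
      | zero =>
        have h4 : (fun x => (0 : Dual (ZMod 2) E) x * mono e S x) = 0 :=
          funext fun x => by simp
        rw [h4]
        exact Submodule.zero_mem _
      | add l l' _ _ h4 h5 =>
        have h6 : (fun x => (l + l') x * mono e S x) =
            (fun x => l x * mono e S x) + fun x => l' x * mono e S x :=
          funext fun x => by simp [add_mul]
        rw [h6]
        exact Submodule.add_mem _ h4 h5
      | smul a l _ h4 =>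
        have h6 : (fun x => (a • l) x * mono e S x) = a • fun x => l x * mono e S x :=
          funext fun x => by simp [mul_assoc]
        rw [h6]
        exact Submodule.smul_mem _ _ h4
    have h4 : (fun x => (c + l x) * mono e S x) =
        (fun x => c * mono e S x) + fun x => l x * mono e S x :=
      funext fun x => by simp [add_mul]
    simp only
    rw [h4]
    exact Submodule.add_mem _ h1 h3
  | zero =>
    have h4 : (fun x => (c + l x) * (0 : E → ZMod 2) x) = 0 := funext fun x => by simp
    rw [h4]
    exact Submodule.zero_mem _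
  | add g g' _ _ h4 h5 =>
    have h6 : (fun x => (c + l x) * (g + g') x) =
        (fun x => (c + l x) * g x) + fun x => (c + l x) * g' x :=
      funext fun x => by simp [mul_add]
    rw [h6]
    exact Submodule.add_mem _ h4 h5
  | smul a g _ h4 =>
    have h6 : (fun x => (c + l x) * (a • g) x) = a • fun x => (c + l x) * g x :=
      funext fun x => by simp [mul_left_comm]
    rw [h6]
    exact Submodule.smul_mem _ _ h4

omit [Fintype E] in
lemma prod_mem_polys (he : Submodule.span (ZMod 2) (Set.range e) = ⊤) :
    ∀ (q : ℕ) (c : Fin q → ZMod 2) (r : Fin q → Dual (ZMod 2) E),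
      (fun x => ∏ j, (c j + r j x)) ∈ polys e q := by
  intro q
  induction q with
  | zero =>
    intro c r
    have h1 : (fun x : E => ∏ j : Fin 0, (c j + r j x)) = mono e ∅ :=
      funext fun x => by simp [mono]
    rw [h1]
    exact mono_mem e (le_of_eq card_empty)
  | succ q ih =>
    intro c r
    have h1 : (fun x : E => ∏ j : Fin (q + 1), (c j + r j x)) =
        fun x => (c 0 + r 0 x) * ∏ j : Fin q, (c j.succ + r j.succ x) :=
      funext fun x => by rw [Fin.prod_univ_succ]
    rw [h1]
    exact polys_mul e he (c 0) (r 0) (ih (fun j => c j.succ) fun j => r j.succ)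

omit [Fintype E] in
lemma polys_mono {k k' : ℕ} (h : k ≤ k') : polys e k ≤ polys e k' := by
  apply Submodule.span_mono
  rintro _ ⟨⟨S, hS⟩, rfl⟩
  exact ⟨⟨S, hS.trans h⟩, rfl⟩

lemma finrank_polys_le (k : ℕ) :
    finrank (ZMod 2) (polys e k) ≤ ∑ i ∈ range (k + 1), N.choose i := by
  have h1 : finrank (ZMod 2) (polys e k) ≤ Fintype.card {S : Finset (Fin N) // S.card ≤ k} :=
    finrank_range_le_card _
  refine h1.trans ?_
  rw [Fintype.card_subtype]
  have h2 : (univ.filter fun S : Finset (Fin N) => S.card ≤ k) ⊆
      (range (k + 1)).biUnion fun i => powersetCard i univ := by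
    intro S hS
    rw [mem_filter] at hS
    rw [mem_biUnion]
    exact ⟨S.card, mem_range.2 (Nat.lt_succ_of_le hS.2), mem_powersetCard.2 ⟨subset_univ _, rfl⟩⟩
  refine (card_le_card h2).trans (card_biUnion_le.trans (le_of_eq ?_))
  refine sum_congr rfl fun i _ => ?_
  rw [card_powersetCard, card_univ, Fintype.card_fin]

end

open Classical in
/-- The indicator function of a cell. -/
noncomputable def icell (T : Submodule (ZMod 2) (Dual (ZMod 2) E)) (z x : E) : ZMod 2 :=
  if x ∈ cell T z then 1 else 0

lemma icell_mem {N : ℕ} (e : Fin N → Dual (ZMod 2) E)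
    (he : Submodule.span (ZMod 2) (Set.range e) = ⊤) (T : Submodule (ZMod 2) (Dual (ZMod 2) E))
    {k : ℕ} (hT : finrank (ZMod 2) T ≤ k) (z : E) : icell T z ∈ polys e k := by
  classical
  have : FiniteDimensional (ZMod 2) E := Module.Finite.of_finite
  let b := Module.finBasis (ZMod 2) T
  have h1 : icell T z = fun x => ∏ j, ((1 + (b j : Dual (ZMod 2) E) z) +
      (b j : Dual (ZMod 2) E) x) := by
    funext x
    have h2 : ∀ p q : ZMod 2, 1 + q + p = if p = q then 1 else 0 := by decide
    simp only [h2]
    rw [icell, prod_boole]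
    simp only [mem_univ, forall_true_left]
    by_cases h3 : x ∈ cell T z
    · rw [if_pos h3, if_pos fun j => mem_cell.1 h3 _ (b j).2]
    · rw [if_neg h3, if_neg]
      intro h4
      apply h3
      rw [mem_cell]
      intro t ht
      have h5 : (⟨t, ht⟩ : T) = ∑ j, b.repr ⟨t, ht⟩ j • b j := (b.sum_repr _).symm
      have h6 : t = ∑ j, b.repr ⟨t, ht⟩ j • (b j : Dual (ZMod 2) E) := by
        have h7 : t = ((∑ j, b.repr ⟨t, ht⟩ j • b j : T) : Dual (ZMod 2) E) :=
          congrArg Subtype.val h5
        rw [Submodule.coe_sum] at h7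
        exact h7
      rw [h6]
      simp only [LinearMap.sum_apply, LinearMap.smul_apply, h4]
  rw [h1]
  exact polys_mono e hT (prod_mem_polys e he _ _ _)

/-- The greedy cover. -/
lemma greedy (R : E → Submodule (ZMod 2) (Dual (ZMod 2) E)) :
    ∀ (n : ℕ) (X : Finset E), X.card = n → ∃ I ⊆ X, (∀ x ∈ X, ∃ z ∈ I, x ∈ cell (R z) z) ∧
      ∀ c : E → ZMod 2, (∀ w ∈ I, ∑ z ∈ I, c z * icell (R z) z w = 0) → ∀ z ∈ I, c z = 0 := by
  classical
  intro n
  induction n using Nat.strong_induction_on with
  | _ n ih =>
    intro X hX
    rcases X.eq_empty_or_nonempty with h0 | ⟨z, hz⟩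
    · subst h0
      exact ⟨∅, subset_refl _, by simp, by simp⟩
    · set X' := X.filter fun x => x ∉ cell (R z) z with hX'
      have hlt : X'.card < n := by
        rw [← hX]
        apply card_lt_card
        rw [filter_ssubset]
        exact ⟨z, hz, not_not.2 (mem_cell_self _ _)⟩
      obtain ⟨I, hI, hcov, hind⟩ := ih _ hlt X' rfl
      have hzI : z ∉ I := by
        intro h
        exact (mem_filter.1 (hI h)).2 (mem_cell_self _ _)
      refine ⟨insert z I, ?_, ?_, ?_⟩
      · rw [insert_subset_iff]
        exact ⟨hz, hI.trans (filter_subset _ _)⟩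
      · intro x hx
        by_cases h1 : x ∈ cell (R z) z
        · exact ⟨z, mem_insert_self _ _, h1⟩
        · obtain ⟨w, hw, hxw⟩ := hcov x (mem_filter.2 ⟨hx, h1⟩)
          exact ⟨w, mem_insert_of_mem hw, hxw⟩
      · intro c hc
        have h1 : ∀ w ∈ I, c w = 0 := by
          apply hind c
          intro w hw
          have h2 := hc w (mem_insert_of_mem hw)
          rw [sum_insert hzI] at h2
          have h3 : icell (R z) z w = 0 := by
            rw [icell, if_neg (mem_filter.1 (hI hw)).2]
          rw [h3, mul_zero, zero_add] at h2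
          exact h2
        have h2 := hc z (mem_insert_self _ _)
        rw [sum_insert hzI, sum_eq_zero fun w hw => by rw [h1 w hw, zero_mul], add_zero, icell,
          if_pos (mem_cell_self _ _), mul_one] at h2
        intro w hw
        rcases mem_insert.1 hw with rfl | hw
        · exact h2
        · exact h1 w hw

/-- **The cover.** -/
theorem cover (X : Finset E) (R : E → Submodule (ZMod 2) (Dual (ZMod 2) E)) {k : ℕ}
    (hR : ∀ z ∈ X, finrank (ZMod 2) (R z) ≤ k) :
    ∃ I ⊆ X, I.card ≤ ∑ i ∈ range (k + 1), (finrank (ZMod 2) E).choose i ∧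
      ∀ x ∈ X, ∃ z ∈ I, x ∈ cell (R z) z := by
  classical
  have : FiniteDimensional (ZMod 2) E := Module.Finite.of_finite
  obtain ⟨I, hI, hcov, hind⟩ := greedy R X.card X rfl
  refine ⟨I, hI, ?_, hcov⟩
  have hdim : finrank (ZMod 2) (Dual (ZMod 2) E) = finrank (ZMod 2) E :=
    Subspace.dual_finrank_eq
  let b := Module.finBasis (ZMod 2) (Dual (ZMod 2) E)
  have he : Submodule.span (ZMod 2) (Set.range b) = ⊤ := b.span_eq
  have hli : LinearIndependent (ZMod 2) fun z : I =>
      (⟨icell (R z) z, icell_mem b he (R z) (hR z (hI z.2)) z⟩ : polys b k) := by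
    rw [Fintype.linearIndependent_iff]
    intro c hc z
    have h1 := hind (fun x => if hx : x ∈ I then c ⟨x, hx⟩ else 0) (by
      intro w hw
      have h2 := congrArg (fun g : polys b k => (g : E → ZMod 2) w) hc
      simp only [Submodule.coe_sum, Submodule.coe_smul, Finset.sum_apply, Pi.smul_apply,
        smul_eq_mul, Submodule.coe_zero, Pi.zero_apply] at h2
      rw [← h2, ← Finset.sum_coe_sort I]
      refine sum_congr rfl fun x _ => ?_
      rw [dif_pos x.2]) z z.2
    rw [dif_pos z.2] at h1
    exact h1
  have h1 := hli.fintype_card_le_finrank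
  rw [Fintype.card_coe] at h1
  refine h1.trans ((finrank_polys_le b k).trans (le_of_eq ?_))
  rw [hdim]

end Pool.Agent.WRL
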