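import Mathlib

set_option autoImplicit false

/-!
# An affine map which keeps some linear forms and freezes others
-/

namespace Pool.Agent.WRL

open Module

variable {E : Type} [AddCommGroup E] [Module (ZMod 2) E] [FiniteDimensional (ZMod 2) E]

lemma exists_extend {F : Type} [AddCommGroup F] [Module (ZMod 2) F] [FiniteDimensional (ZMod 2) F]
    {W G : Submodule (ZMod 2) F} (hd : Disjoint W G) (k : ℕ)
    (hk : finrank (ZMod 2) W + k + finrank (ZMod 2) G ≤ finrank (ZMod 2) F) :
    ∃ W' : Submodule (ZMod 2) F, W ≤ W' ∧ Disjoint W' G ∧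
      finrank (ZMod 2) W' = finrank (ZMod 2) W + k := by
  induction k with
  | zero => exact ⟨W, le_refl W, hd, rfl⟩
  | succ k ih =>
    obtain ⟨W', hle, hdis, hfin⟩ := ih (by omega)
    have h1 : finrank (ZMod 2) ↥(W' ⊔ G) < finrank (ZMod 2) F := by
      have := Submodule.finrank_add_le_finrank_add_finrank W' G
      omega
    obtain ⟨l, hl⟩ : ∃ l, l ∉ W' ⊔ G := by
      by_contra hcon
      push Not at hcon
      have : W' ⊔ G = ⊤ := Submodule.eq_top_iff'.2 hcon
      rw [this, finrank_top] at h1
      omega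
    have hl0 : l ≠ 0 := fun h0 => hl (h0 ▸ Submodule.zero_mem _)
    have hlW : l ∉ W' := fun h0 => hl (Submodule.mem_sup_left h0)
    refine ⟨W' ⊔ Submodule.span (ZMod 2) {l}, hle.trans le_sup_left, ?_, ?_⟩
    · rw [Submodule.disjoint_def]
      intro p hp hpG
      obtain ⟨w, hw, s, hs, rfl⟩ := Submodule.mem_sup.1 hp
      obtain ⟨c, rfl⟩ := Submodule.mem_span_singleton.1 hs
      by_cases hc : c = 0
      · rw [hc, zero_smul, add_zero] at hpG ⊢
        exact (Submodule.disjoint_def.1 hdis) w hw hpG
      · exfalso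
        apply hl
        have h2 : c • l ∈ W' ⊔ G := by
          have := Submodule.sub_mem _ (Submodule.mem_sup_right hpG : w + c • l ∈ W' ⊔ G)
            (Submodule.mem_sup_left hw)
          rwa [add_sub_cancel_left] at this
        have := Submodule.smul_mem _ c⁻¹ h2
        rwa [smul_smul, inv_mul_cancel₀ hc, one_smul] at this
    · have hdl : Disjoint W' (Submodule.span (ZMod 2) {l}) := by
        rw [Submodule.disjoint_def]
        intro p hp hps
        obtain ⟨c, rfl⟩ := Submodule.mem_span_singleton.1 hps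
        by_cases hc : c = 0
        · rw [hc, zero_smul]
        · exfalso
          apply hlW
          have := Submodule.smul_mem _ c⁻¹ hp
          rwa [smul_smul, inv_mul_cancel₀ hc, one_smul] at this
      have h3 := Submodule.finrank_sup_add_finrank_inf_eq W' (Submodule.span (ZMod 2) {l})
      rw [hdl.eq_bot, finrank_bot, finrank_span_singleton hl0] at h3
      omega

/-- If `W` and `G` are disjoint spaces of linear forms, `finrank W ≤ r` and
`finrank G ≤ finrank E - r` then there is an affine map whose linear part has a kernel of dimension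
`finrank E - r`, which keeps the values of the forms of `W` and gives the forms of `G` the values
which they have at `z`. -/
theorem exists_affine {W G : Submodule (ZMod 2) (Dual (ZMod 2) E)} (hd : Disjoint W G) {r : ℕ}
    (hW : finrank (ZMod 2) W ≤ r) (hG : finrank (ZMod 2) G + r ≤ finrank (ZMod 2) E) (z : E) :
    ∃ (L : E →ₗ[ZMod 2] E) (c : E), finrank (ZMod 2) (LinearMap.ker L) + r = finrank (ZMod 2) E ∧
      (∀ w ∈ W, ∀ x, w (L x + c) = w x) ∧ (∀ g ∈ G, ∀ x, g (L x + c) = g z) := by
  have hdim : finrank (ZMod 2) (Dual (ZMod 2) E) = finrank (ZMod 2) E :=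
    Subspace.dual_finrank_eq
  obtain ⟨W', hle, hdis, hfin⟩ := exists_extend hd (r - finrank (ZMod 2) W) (by omega)
  have hfin' : finrank (ZMod 2) W' = r := by omega
  obtain ⟨G', hGG, hc'⟩ := hdis.symm.exists_isCompl
  have hc := hc'.symm
  set p : Dual (ZMod 2) E →ₗ[ZMod 2] Dual (ZMod 2) E :=
    W'.subtype ∘ₗ Submodule.projectionOnto W' G' hc with hp
  have hpW : ∀ w ∈ W', p w = w := by
    intro w hw
    rw [hp, LinearMap.comp_apply, Submodule.projectionOnto_apply_left hc ⟨w, hw⟩]
    rfl
  have hpG : ∀ g ∈ G', p g = 0 := by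
    intro g hg
    rw [hp, LinearMap.comp_apply, (Submodule.projectionOnto_apply_eq_zero_iff hc).2 hg, map_zero]
  have hpr : ∀ φ, p φ ∈ W' := fun φ => (Submodule.projectionOnto W' G' hc φ).2
  set L : E →ₗ[ZMod 2] E := (Module.evalEquiv (ZMod 2) E).symm.toLinearMap ∘ₗ
    p.dualMap ∘ₗ (Module.evalEquiv (ZMod 2) E).toLinearMap with hL
  have key : ∀ (φ : Dual (ZMod 2) E) (x : E), φ (L x) = (p φ) x := by
    intro φ x
    have h1 : φ (L x) = (Module.evalEquiv (ZMod 2) E (L x)) φ := rfl
    rw [h1, hL]
    simp only [LinearMap.comp_apply, LinearEquiv.coe_coe, LinearEquiv.apply_symm_apply]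
    rfl
  have hker : LinearMap.ker L = W'.dualCoannihilator := by
    ext x
    rw [LinearMap.mem_ker, Submodule.mem_dualCoannihilator]
    constructor
    · intro hx w hw
      rw [← hpW w hw, ← key, hx, map_zero]
    · intro hx
      rw [← Module.forall_dual_apply_eq_zero_iff (ZMod 2)]
      intro φ
      rw [key]
      exact hx _ (hpr φ)
  refine ⟨L, z - L z, ?_, ?_, ?_⟩
  · rw [hker]
    have := Subspace.finrank_add_finrank_dualCoannihilator_eq W'
    omega
  · intro w hw x
    rw [map_add, map_sub, key, key, hpW w (hle hw)]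
    abel
  · intro g hg x
    rw [map_add, map_sub, key, key, hpG g (hGG hg)]
    simp

end Pool.Agent.WRL
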