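import Pool.Agent.WRL.Quad

set_option autoImplicit false

/-!
# Counting the common zeros of quadratic functions and the pairs of an affine map
-/

namespace Pool.Agent.WRL

open Module

lemma sq_bound {T : ℝ} {n f k : ℕ} (h : T ^ 2 ≤ 2 ^ n * 2 ^ f) (hk : f + 2 * k ≤ n) :
    |T| ≤ 2 ^ n / 2 ^ k := by
  have h0 : (0 : ℝ) ≤ 2 ^ n / 2 ^ k := by positivity
  refine abs_le_of_sq_le_sq (h.trans ?_) h0
  rw [div_pow, le_div_iff₀ (by positivity), ← pow_mul, ← pow_mul, ← pow_add, ← pow_add]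
  apply pow_le_pow_right₀ (by norm_num)
  omega

section

variable {E : Type} [AddCommGroup E] [Module (ZMod 2) E] {m : ℕ}

lemma ind (a : Fin m → ZMod 2) [Decidable (∀ j, a j = 0)] :
    ∑ μ : Fin m → ZMod 2, sg (∑ j, μ j * a j) = if ∀ j, a j = 0 then (2 : ℝ) ^ m else 0 := by
  classical
  set l : (Fin m → ZMod 2) →ₗ[ZMod 2] ZMod 2 := ∑ j, a j • LinearMap.proj j with hldef
  have hl : ∀ μ, l μ = ∑ j, μ j * a j := by
    intro μ
    rw [hldef]
    simp [LinearMap.sum_apply, mul_comm]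
  have h := sum_sg_linear l
  simp_rw [hl] at h
  rw [h]
  have h1 : (l = 0) ↔ ∀ j, a j = 0 := by
    constructor
    · intro h2 j
      have h3 := hl (Pi.single j 1)
      rw [h2] at h3
      simpa [Pi.single_apply] using h3.symm
    · intro h2
      ext j
      simp [hldef, h2]
  simp only [h1, Fintype.card_pi, ZMod.card, Finset.prod_const, Finset.card_univ,
    Fintype.card_fin]
  split_ifs <;> simp

/-- The combination of the functions with the coefficients `μ`. -/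
def qm (Q : Fin m → E → ZMod 2) (μ : Fin m → ZMod 2) (x : E) : ZMod 2 := ∑ j, μ j * Q j x

/-- The combination of the polar forms with the coefficients `μ`. -/
noncomputable def Bm (B : Fin m → E →ₗ[ZMod 2] Dual (ZMod 2) E) (μ : Fin m → ZMod 2) :
    E →ₗ[ZMod 2] Dual (ZMod 2) E := ∑ j, μ j • B j

variable {Q : Fin m → E → ZMod 2} {B : Fin m → E →ₗ[ZMod 2] Dual (ZMod 2) E}

lemma isQ_qm (hQ : ∀ j, IsQ (Q j) (B j)) (μ : Fin m → ZMod 2) : IsQ (qm Q μ) (Bm B μ) :=
  IsQ.sum Finset.univ fun j => (hQ j).smul (μ j)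

omit [AddCommGroup E] [Module (ZMod 2) E] in
lemma qm_zero (x : E) : qm Q 0 x = 0 := by simp [qm]

lemma Bm_zero : Bm B 0 = 0 := by simp [Bm]

variable [Fintype E]

/-- The number of the common zeros of the functions. -/
theorem card_zeros [DecidablePred fun x : E => ∀ j, Q j x = 0] (hQ : ∀ j, IsQ (Q j) (B j)) {ρ : ℕ}
    (hB : ∀ μ : Fin m → ZMod 2, μ ≠ 0 → finrank (ZMod 2) (LinearMap.ker (Bm B μ)) ≤ ρ)
    (hn : 2 * m + 2 + ρ ≤ finrank (ZMod 2) E) :
    (2 : ℝ) ^ finrank (ZMod 2) E ≤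
      2 * 2 ^ m * ((Finset.univ.filter fun x : E => ∀ j, Q j x = 0).card : ℝ) := by
  classical
  set n := finrank (ZMod 2) E with hn0
  have hE : (Fintype.card E : ℝ) = 2 ^ n := by
    rw [Module.card_eq_pow_finrank (K := ZMod 2), ZMod.card]
    push_cast
    rfl
  have h1 : 2 ^ m * ((Finset.univ.filter fun x : E => ∀ j, Q j x = 0).card : ℝ) =
      ∑ μ : Fin m → ZMod 2, ∑ x : E, sg (qm Q μ x) := by
    rw [Finset.sum_comm]
    have e1 : ∀ x : E, ∑ μ : Fin m → ZMod 2, sg (qm Q μ x) =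
        if ∀ j, Q j x = 0 then (2 : ℝ) ^ m else 0 := fun x => ind fun j => Q j x
    rw [Finset.sum_congr rfl fun x _ => e1 x, ← Finset.sum_filter, Finset.sum_const, nsmul_eq_mul,
      mul_comm]
  have h2 : ∀ μ : Fin m → ZMod 2,
      (if μ = 0 then (2 : ℝ) ^ n else 0) - 2 ^ n / 2 ^ (m + 1) ≤ ∑ x : E, sg (qm Q μ x) := by
    intro μ
    split_ifs with h
    · rw [h]
      simp only [qm_zero, sg_zero, Finset.sum_const, Finset.card_univ, nsmul_eq_mul, mul_one, hE]
      have : (0 : ℝ) ≤ 2 ^ n / 2 ^ (m + 1) := by positivity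
      linarith
    · have h3 := bias (isQ_qm hQ μ)
      rw [hE] at h3
      have h4 := sq_bound (k := m + 1) h3 (by have := hB μ h; omega)
      have h5 := neg_abs_le (∑ x : E, sg (qm Q μ x))
      linarith
  have h3 := Finset.sum_le_sum fun (μ : Fin m → ZMod 2) (_ : μ ∈ Finset.univ) => h2 μ
  rw [← h1, Finset.sum_sub_distrib, Finset.sum_ite_eq' Finset.univ (0 : Fin m → ZMod 2)] at h3
  simp only [Finset.mem_univ, if_true, Finset.sum_const, Finset.card_univ, Fintype.card_pi,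
    ZMod.card, Finset.prod_const, Fintype.card_fin, nsmul_eq_mul, Nat.cast_pow, Nat.cast_ofNat] at h3
  have h4 : (2 : ℝ) ^ m * (2 ^ n / 2 ^ (m + 1)) = 2 ^ n / 2 := by
    rw [pow_succ]; field_simp
  rw [h4] at h3
  linarith

/-- The number of the common zeros which an affine map sends to common zeros. -/
theorem card_pairs (hQ : ∀ j, IsQ (Q j) (B j)) {ρ : ℕ}
    (hB : ∀ μ : Fin m → ZMod 2, μ ≠ 0 → finrank (ZMod 2) (LinearMap.ker (Bm B μ)) ≤ ρ)
    (L : E →ₗ[ZMod 2] E) (c : E) (h1 : 4 * m + ρ ≤ finrank (ZMod 2) (LinearMap.ker L))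
    (h2 : 2 * finrank (ZMod 2) (LinearMap.ker L) + ρ + 2 * m ≤ finrank (ZMod 2) E)
    [DecidablePred fun x : E => (∀ j, Q j x = 0) ∧ ∀ j, Q j (L x + c) = 0] :
    2 ^ m * 2 ^ m * ((Finset.univ.filter fun x : E =>
      (∀ j, Q j x = 0) ∧ ∀ j, Q j (L x + c) = 0).card : ℝ) ≤ 3 * 2 ^ finrank (ZMod 2) E := by
  classical
  have : FiniteDimensional (ZMod 2) E := Module.Finite.of_finite
  set n := finrank (ZMod 2) E with hn0
  set a := finrank (ZMod 2) (LinearMap.ker L) with ha0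
  have hE : (Fintype.card E : ℝ) = 2 ^ n := by
    rw [Module.card_eq_pow_finrank (K := ZMod 2), ZMod.card]
    push_cast
    rfl
  have h3 : 2 ^ m * 2 ^ m * ((Finset.univ.filter fun x : E =>
      (∀ j, Q j x = 0) ∧ ∀ j, Q j (L x + c) = 0).card : ℝ) =
      ∑ μ : Fin m → ZMod 2, ∑ ν : Fin m → ZMod 2, ∑ x : E, sg (qm Q μ x + qm Q ν (L x + c)) := by
    have e1 : ∀ x : E, ∑ μ : Fin m → ZMod 2, ∑ ν : Fin m → ZMod 2,
        sg (qm Q μ x + qm Q ν (L x + c)) =
        if (∀ j, Q j x = 0) ∧ ∀ j, Q j (L x + c) = 0 then (2 : ℝ) ^ m * 2 ^ m else 0 := by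
      intro x
      have e2 : ∑ μ : Fin m → ZMod 2, sg (qm Q μ x) =
        if ∀ j, Q j x = 0 then (2 : ℝ) ^ m else 0 := ind fun j => Q j x
      have e3 : ∑ μ : Fin m → ZMod 2, sg (qm Q μ (L x + c)) =
        if ∀ j, Q j (L x + c) = 0 then (2 : ℝ) ^ m else 0 := ind fun j => Q j (L x + c)
      simp only [sg_add]
      rw [← Finset.sum_mul_sum, e2, e3]
      by_cases p1 : ∀ j, Q j x = 0
      · by_cases p2 : ∀ j, Q j (L x + c) = 0
        · rw [if_pos p1, if_pos p2, if_pos ⟨p1, p2⟩]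
        · have hne : ¬ ((∀ j, Q j x = 0) ∧ ∀ j, Q j (L x + c) = 0) := fun h => p2 h.2
          rw [if_neg hne, if_neg p2, mul_zero]
      · have hne : ¬ ((∀ j, Q j x = 0) ∧ ∀ j, Q j (L x + c) = 0) := fun h => p1 h.1
        rw [if_neg hne, if_neg p1, zero_mul]
    have e4 : ∑ μ : Fin m → ZMod 2, ∑ ν : Fin m → ZMod 2, ∑ x : E,
        sg (qm Q μ x + qm Q ν (L x + c)) = ∑ x : E, ∑ μ : Fin m → ZMod 2, ∑ ν : Fin m → ZMod 2,
        sg (qm Q μ x + qm Q ν (L x + c)) := by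
      rw [Finset.sum_comm]
      conv_lhs =>
        enter [2, ν]
        rw [Finset.sum_comm]
      rw [Finset.sum_comm]
      refine Finset.sum_congr rfl fun x _ => ?_
      rw [Finset.sum_comm]
    rw [e4, Finset.sum_congr rfl fun x _ => e1 x, ← Finset.sum_filter, Finset.sum_const,
      nsmul_eq_mul, mul_comm]
  have h4 : ∀ μ ν : Fin m → ZMod 2, ∑ x : E, sg (qm Q μ x + qm Q ν (L x + c)) ≤
      2 ^ n / 2 ^ (2 * m) + ((if μ = 0 then (2 : ℝ) ^ n / 2 ^ m else 0) +
        if μ = 0 then (if ν = 0 then (2 : ℝ) ^ n else 0) else 0) := by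
    intro μ ν
    have hq : IsQ (fun x => qm Q μ x + qm Q ν (L x + c))
        (Bm B μ + L.dualMap ∘ₗ Bm B ν ∘ₗ L) := (isQ_qm hQ μ).add ((isQ_qm hQ ν).comp L c)
    have hp1 : (0 : ℝ) ≤ 2 ^ n / 2 ^ (2 * m) := by positivity
    have hp2 : (0 : ℝ) ≤ 2 ^ n / 2 ^ m := by positivity
    by_cases hμ : μ = 0
    · by_cases hν : ν = 0
      · rw [if_pos hμ, if_pos hμ, if_pos hν, hμ, hν]
        simp only [qm_zero, add_zero, sg_zero, Finset.sum_const, Finset.card_univ, nsmul_eq_mul,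
          mul_one, hE]
        linarith
      · rw [if_pos hμ, if_pos hμ, if_neg hν]
        have h5 := bias hq
        rw [hE] at h5
        have h6 := rank_one L (Bm B ν)
        have h7 := hB ν hν
        rw [hμ, Bm_zero, zero_add] at h5
        have h8 := sq_bound (k := m) h5 (by omega)
        have h9 := le_abs_self (∑ x : E, sg (qm Q 0 x + qm Q ν (L x + c)))
        rw [hμ]
        linarith
    · rw [if_neg hμ, if_neg hμ]
      have h5 := bias hq
      rw [hE] at h5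
      have h6 := rank_two L (Bm B μ) (Bm B ν)
      have h7 := hB μ hμ
      have h8 := sq_bound (k := 2 * m) h5 (by omega)
      have h9 := le_abs_self (∑ x : E, sg (qm Q μ x + qm Q ν (L x + c)))
      linarith
  rw [h3]
  refine (Finset.sum_le_sum fun (μ : Fin m → ZMod 2) (_ : μ ∈ Finset.univ) =>
    Finset.sum_le_sum fun (ν : Fin m → ZMod 2) (_ : ν ∈ Finset.univ) => h4 μ ν).trans ?_
  have e1 : ∀ μ : Fin m → ZMod 2, ∑ ν : Fin m → ZMod 2, (2 ^ n / 2 ^ (2 * m) +
      ((if μ = 0 then (2 : ℝ) ^ n / 2 ^ m else 0) +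
        if μ = 0 then (if ν = 0 then (2 : ℝ) ^ n else 0) else 0)) =
      2 ^ m * (2 ^ n / 2 ^ (2 * m)) + if μ = 0 then (2 ^ n + 2 ^ n : ℝ) else 0 := by
    intro μ
    rw [Finset.sum_add_distrib, Finset.sum_add_distrib]
    simp only [Finset.sum_const, Finset.card_univ, Fintype.card_pi, ZMod.card, Finset.prod_const,
      Fintype.card_fin, nsmul_eq_mul, Nat.cast_pow, Nat.cast_ofNat]
    congr 1
    by_cases hμ : μ = 0
    · simp only [hμ, if_true]
      rw [Finset.sum_ite_eq' Finset.univ (0 : Fin m → ZMod 2)]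
      simp only [Finset.mem_univ, if_true]
      congr 1
      field_simp
    · simp [hμ]
  rw [Finset.sum_congr rfl fun μ _ => e1 μ, Finset.sum_add_distrib,
    Finset.sum_ite_eq' Finset.univ (0 : Fin m → ZMod 2)]
  simp only [Finset.sum_const, Finset.card_univ, Fintype.card_pi, ZMod.card, Finset.prod_const,
      Fintype.card_fin, nsmul_eq_mul, Nat.cast_pow, Nat.cast_ofNat, Finset.mem_univ, if_true]
  have e2 : (2 : ℝ) ^ m * (2 ^ m * (2 ^ n / 2 ^ (2 * m))) = 2 ^ n := by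
    rw [two_mul, pow_add]; field_simp
  rw [e2]
  linarith

end

end Pool.Agent.WRL
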