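import Pool.Agent.WRL.Cut
import Pool.Agent.WRL.Affine
import Pool.Agent.WRL.Count

set_option autoImplicit false

/-!
# The lower bound for nondeterministic weakly read-once linear branching programs
-/

namespace Pool.Agent.WRL

open Module

variable {E : Type} [AddCommGroup E] [Module (ZMod 2) E]

namespace Prog

variable (P : Prog E)

/-- A walk from the start node to `v` can be used by every input which has the same values at the
forms of `Pre v`. -/
lemma run_transfer {x y : E} {v : P.V} (h : P.Run x P.start v) (hy : ∀ w ∈ P.Pre v, w y = w x) :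
    P.Run y P.start v := by
  induction h with
  | refl => exact Relation.ReflTransGen.refl
  | @tail b c hb hbc ih =>
    obtain ⟨lab, hlab, htrue⟩ := hbc
    refine (ih fun w hw => hy w (P.pre_mono lab hlab hw)).tail ⟨lab, hlab, fun t ht => ?_⟩
    subst ht
    rw [hy t.1 (P.mem_pre (b := t.2) (P.run_reach hb) hlab)]
    exact htrue t rfl

/-- The reversed program. -/
def rev : Prog E where
  V := P.V
  fin := P.fin
  start := P.acc
  acc := P.start
  edge := fun u w lab => P.edge w u lab

lemma rev_run {x : E} {u w : P.V} : P.rev.Run x u w ↔ P.Run x w u :=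
  Relation.reflTransGen_swap (r := P.Step x)

lemma rev_reach {u w : P.V} : P.rev.Reach u w ↔ P.Reach w u :=
  Relation.reflTransGen_swap (r := fun u w => ∃ lab, P.edge u w lab)

lemma rev_acc {x : E} : P.rev.Acc x ↔ P.Acc x := P.rev_run

lemma rev_pre (v : P.V) : P.rev.Pre v = P.Post v := by
  change Submodule.span (ZMod 2) {l | ∃ (u w : P.V) (b : ZMod 2), P.rev.Reach P.acc u ∧
    P.edge w u (some (l, b)) ∧ P.rev.Reach w v} = Submodule.span (ZMod 2) {l | ∃ (u w : P.V)
    (b : ZMod 2), P.Reach v u ∧ P.edge u w (some (l, b)) ∧ P.Reach w P.acc}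
  congr 1
  ext l
  constructor
  · rintro ⟨u, w, b, h1, h2, h3⟩
    exact ⟨w, u, b, P.rev_reach.1 h3, h2, P.rev_reach.1 h1⟩
  · rintro ⟨u, w, b, h1, h2, h3⟩
    exact ⟨w, u, b, P.rev_reach.2 h3, h2, P.rev_reach.2 h1⟩

lemma rev_readOnce (h : P.BottomReadOnce) : P.rev.ReadOnce := by
  intro u w l b h1 h2
  rw [P.rev_pre u]
  exact h w u l b h2 (P.rev_reach.1 h1)

end Prog

variable {m : ℕ} {Q : Fin m → E → ZMod 2} {B : Fin m → E →ₗ[ZMod 2] Dual (ZMod 2) E} [Fintype E]

/-- The lower bound, top version: a weakly read-once linear program which accepts only common zeros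
of `m` quadratic functions whose combinations have small radicals accepts few inputs. -/
theorem lower_top (hQ : ∀ j, IsQ (Q j) (B j)) {ρ : ℕ}
    (hB : ∀ μ : Fin m → ZMod 2, μ ≠ 0 → finrank (ZMod 2) (LinearMap.ker (Bm B μ)) ≤ ρ)
    (hn : 10 * m + 3 * ρ ≤ finrank (ZMod 2) E) (P : Prog E) (h : P.ReadOnce)
    (hacc : ∀ z, P.Acc z → ∀ j, Q j z = 0) [DecidablePred P.Acc] :
    2 ^ m * 2 ^ m * ((Finset.univ.filter fun z : E => P.Acc z).card : ℝ) ≤
      P.size * (3 * 2 ^ finrank (ZMod 2) E) := by
  classical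
  have : FiniteDimensional (ZMod 2) E := Module.Finite.of_finite
  let _ := P.fin
  set n := finrank (ZMod 2) E with hn0
  set r := n - (4 * m + ρ) with hr
  have hcut : ∀ z : {z : E // P.Acc z}, ∃ (v : P.V) (G : Submodule (ZMod 2) (Dual (ZMod 2) E)),
      P.Run z.1 P.start v ∧ finrank (ZMod 2) (P.Pre v) ≤ r ∧ Disjoint (P.Pre v) G ∧
      finrank (ZMod 2) G + r ≤ finrank (ZMod 2) E ∧
      ∀ y : E, (∀ g ∈ G, g y = g z.1) → P.Run y v P.acc :=
    fun z => P.cut h z.2 (Nat.sub_le _ _)
  choose v hv using hcut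
  have hsum : (Finset.univ.filter fun z : E => P.Acc z).card =
      ∑ u : P.V, (Finset.univ.filter fun z : {z : E // P.Acc z} => v z = u).card := by
    rw [← Fintype.card_subtype, ← Finset.card_univ]
    exact Finset.card_eq_sum_card_fiberwise (fun _ _ => Finset.mem_univ _)
  have hfib : ∀ u : P.V, 2 ^ m * 2 ^ m *
      ((Finset.univ.filter fun z : {z : E // P.Acc z} => v z = u).card : ℝ) ≤ 3 * 2 ^ n := by
    intro u
    rcases (Finset.univ.filter fun z : {z : E // P.Acc z} => v z = u).eq_empty_or_nonempty with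
      h0 | ⟨z0, hz0⟩
    · rw [h0, Finset.card_empty]
      simp
    · rw [Finset.mem_filter] at hz0
      obtain ⟨G, -, h2, h3, h4, h5⟩ := hv z0
      rw [hz0.2] at h2 h3 h5
      obtain ⟨L, c, hL, hLW, hLG⟩ := exists_affine h3 h2 h4 z0.1
      refine le_trans ?_ (card_pairs hQ hB L c (by omega) (by omega))
      apply mul_le_mul_of_nonneg_left _ (by positivity)
      have hinj : Function.Injective (Subtype.val : {z : E // P.Acc z} → E) :=
        Subtype.val_injective
      rw [← Finset.card_image_of_injective _ hinj]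
      exact_mod_cast Finset.card_le_card (by
        intro x hx
        rw [Finset.mem_image] at hx
        obtain ⟨z, hz, rfl⟩ := hx
        rw [Finset.mem_filter] at hz ⊢
        refine ⟨Finset.mem_univ _, hacc z.1 z.2, hacc (L z.1 + c) ?_⟩
        obtain ⟨-, h6, -⟩ := hv z
        rw [hz.2] at h6
        exact (P.run_transfer h6 fun w hw => hLW w hw z.1).trans (h5 _ fun g hg => hLG g hg z.1))
  rw [hsum]
  push_cast
  rw [Finset.mul_sum]
  refine (Finset.sum_le_sum fun u _ => hfib u).trans (le_of_eq ?_)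
  rw [Finset.sum_const, nsmul_eq_mul, Finset.card_univ]
  rfl

/-- The lower bound. -/
theorem lower (hQ : ∀ j, IsQ (Q j) (B j)) {ρ : ℕ}
    (hB : ∀ μ : Fin m → ZMod 2, μ ≠ 0 → finrank (ZMod 2) (LinearMap.ker (Bm B μ)) ≤ ρ)
    (hn : 10 * m + 3 * ρ ≤ finrank (ZMod 2) E) (P : Prog E) (h : P.ReadOnce ∨ P.BottomReadOnce)
    (hacc : ∀ z, P.Acc z → ∀ j, Q j z = 0) [DecidablePred P.Acc] :
    2 ^ m * 2 ^ m * ((Finset.univ.filter fun z : E => P.Acc z).card : ℝ) ≤
      P.size * (3 * 2 ^ finrank (ZMod 2) E) := by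
  classical
  rcases h with h | h
  · exact lower_top hQ hB hn P h hacc
  · have h1 := lower_top hQ hB hn P.rev (P.rev_readOnce h) (fun z hz => hacc z (P.rev_acc.1 hz))
    have h2 : (Finset.univ.filter fun z : E => P.rev.Acc z) =
        Finset.univ.filter fun z : E => P.Acc z := by
      ext z
      simp only [Finset.mem_filter, P.rev_acc]
    rw [h2] at h1
    exact h1

end Pool.Agent.WRL
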