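import Mathlib

set_option autoImplicit false

/-!
# Cells: a dense set has a cell all of whose large subcells are dense
-/

namespace Pool.Agent.WRL

open Module

variable {E : Type} [AddCommGroup E] [Module (ZMod 2) E] [Fintype E]

open Classical in
/-- The points of `E` at which the forms of `T` have the same values as at `x`. -/
noncomputable def cell (T : Submodule (ZMod 2) (Dual (ZMod 2) E)) (x : E) : Finset E :=
  Finset.univ.filter fun y => ∀ t ∈ T, t y = t x

lemma mem_cell {T : Submodule (ZMod 2) (Dual (ZMod 2) E)} {x y : E} :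
    y ∈ cell T x ↔ ∀ t ∈ T, t y = t x := by
  simp [cell]

lemma mem_cell_self (T : Submodule (ZMod 2) (Dual (ZMod 2) E)) (x : E) : x ∈ cell T x :=
  mem_cell.2 fun _ _ => rfl

lemma mem_cell_comm {T : Submodule (ZMod 2) (Dual (ZMod 2) E)} {x y : E} :
    y ∈ cell T x ↔ x ∈ cell T y := by
  rw [mem_cell, mem_cell]
  exact ⟨fun h t ht => (h t ht).symm, fun h t ht => (h t ht).symm⟩

lemma cell_eq {T : Submodule (ZMod 2) (Dual (ZMod 2) E)} {x y : E} (h : y ∈ cell T x) :
    cell T y = cell T x := by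
  rw [mem_cell] at h
  ext z
  rw [mem_cell, mem_cell]
  exact ⟨fun h1 t ht => (h1 t ht).trans (h t ht), fun h1 t ht => (h1 t ht).trans (h t ht).symm⟩

lemma cell_mono {T T' : Submodule (ZMod 2) (Dual (ZMod 2) E)} (h : T ≤ T') {x y : E}
    (hy : y ∈ cell T x) : cell T' y ⊆ cell T x := by
  intro z hz
  rw [mem_cell] at *
  exact fun t ht => (hz t (h ht)).trans (hy t ht)

/-- The number of the points of a cell. -/
lemma card_cell (T : Submodule (ZMod 2) (Dual (ZMod 2) E)) (x : E) :
    (cell T x).card * 2 ^ finrank (ZMod 2) T = 2 ^ finrank (ZMod 2) E := by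
  classical
  have : FiniteDimensional (ZMod 2) E := Module.Finite.of_finite
  have h1 : (cell T x).card = Fintype.card T.dualCoannihilator := by
    rw [← Fintype.card_coe]
    refine Fintype.card_congr ⟨fun y => ⟨y.1 - x, ?_⟩, fun u => ⟨x + u.1, ?_⟩, ?_, ?_⟩
    · rw [Submodule.mem_dualCoannihilator]
      intro t ht
      rw [map_sub, mem_cell.1 y.2 t ht, sub_self]
    · rw [mem_cell]
      intro t ht
      rw [map_add, (Submodule.mem_dualCoannihilator _).1 u.2 t ht, add_zero]
    · intro y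
      simp
    · intro u
      simp
  have h2 : Fintype.card T.dualCoannihilator = 2 ^ finrank (ZMod 2) T.dualCoannihilator := by
    rw [Module.card_eq_pow_finrank (K := ZMod 2), ZMod.card]
  have h3 := Subspace.finrank_add_finrank_dualCoannihilator_eq T
  rw [h1, h2, ← pow_add]
  congr 1
  omega

open Classical in
/-- The density of `S` in a cell, times `2 ^ finrank E`. -/
noncomputable def dn (S : Finset E) (T : Submodule (ZMod 2) (Dual (ZMod 2) E)) (x : E) : ℝ :=
  ((cell T x ∩ S).card : ℝ) * 2 ^ finrank (ZMod 2) T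

lemma dn_nonneg (S : Finset E) (T : Submodule (ZMod 2) (Dual (ZMod 2) E)) (x : E) :
    0 ≤ dn S T x := by
  rw [dn]
  positivity

lemma dn_le (S : Finset E) (T : Submodule (ZMod 2) (Dual (ZMod 2) E)) (x : E) :
    dn S T x ≤ 2 ^ finrank (ZMod 2) E := by
  classical
  have h1 : ((cell T x).card : ℝ) * 2 ^ finrank (ZMod 2) T = 2 ^ finrank (ZMod 2) E := by
    exact_mod_cast card_cell T x
  rw [dn, ← h1]
  apply mul_le_mul_of_nonneg_right _ (by positivity)
  exact_mod_cast Finset.card_le_card Finset.inter_subset_left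

lemma dn_eq {S : Finset E} {T : Submodule (ZMod 2) (Dual (ZMod 2) E)} {x y : E}
    (h : y ∈ cell T x) : dn S T y = dn S T x := by
  rw [dn, dn, cell_eq h]

/-- The average of the densities in the subcells. -/
lemma sum_dn (S : Finset E) {T T' : Submodule (ZMod 2) (Dual (ZMod 2) E)} (h : T ≤ T') (x : E) :
    (∑ y ∈ cell T x, dn S T' y) = (cell T x).card * dn S T x := by
  classical
  have hc : ∀ y : E, ((cell T' y).card : ℝ) * 2 ^ finrank (ZMod 2) T' =
      2 ^ finrank (ZMod 2) E := fun y => by exact_mod_cast card_cell T' y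
  have hc' : ((cell T x).card : ℝ) * 2 ^ finrank (ZMod 2) T =
      2 ^ finrank (ZMod 2) E := by exact_mod_cast card_cell T x
  have h1 : (∑ y ∈ cell T x, ((cell T' y ∩ S).card : ℝ)) =
      ∑ s ∈ cell T x ∩ S, ((cell T' s).card : ℝ) := by
    have e1 : ∀ y ∈ cell T x, ((cell T' y ∩ S).card : ℝ) =
        ∑ s ∈ cell T x ∩ S, if s ∈ cell T' y then (1 : ℝ) else 0 := by
      intro y hy
      rw [Finset.sum_ite, Finset.sum_const_zero, add_zero, Finset.sum_const, nsmul_eq_mul, mul_one]
      congr 2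
      ext s
      simp only [Finset.mem_inter, Finset.mem_filter]
      exact ⟨fun ⟨p, q⟩ => ⟨⟨cell_mono h hy p, q⟩, p⟩, fun ⟨⟨_, q⟩, p⟩ => ⟨p, q⟩⟩
    have e2 : ∀ s ∈ cell T x ∩ S, ((cell T' s).card : ℝ) =
        ∑ y ∈ cell T x, if s ∈ cell T' y then (1 : ℝ) else 0 := by
      intro s hs
      rw [Finset.mem_inter] at hs
      rw [Finset.sum_ite, Finset.sum_const_zero, add_zero, Finset.sum_const, nsmul_eq_mul, mul_one]
      congr 2
      ext y
      simp only [Finset.mem_filter]
      exact ⟨fun p => ⟨cell_mono h hs.1 p, mem_cell_comm.1 p⟩, fun p => mem_cell_comm.1 p.2⟩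
    rw [Finset.sum_congr rfl e1, Finset.sum_congr rfl e2, Finset.sum_comm]
  simp only [dn]
  rw [← Finset.sum_mul, h1, Finset.sum_mul, Finset.sum_congr rfl fun s _ => hc s, Finset.sum_const,
    nsmul_eq_mul, ← hc']
  ring

/-- The increment of the density: if some subcell of a cell is sparse then another one is denser
than the cell. -/
lemma dn_step {S : Finset E} {T R : Submodule (ZMod 2) (Dual (ZMod 2) E)} {K : ℕ}
    (hR : finrank (ZMod 2) R ≤ K) {x z : E} (hz : z ∈ cell T x)
    (h : 2 * dn S (T ⊔ R) z < dn S T x) :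
    ∃ y, (1 + 1 / 2 ^ (K + 1)) * dn S T x ≤ dn S (T ⊔ R) y := by
  classical
  have : FiniteDimensional (ZMod 2) E := Module.Finite.of_finite
  by_contra hcon
  push Not at hcon
  set D := dn S T x with hD
  set T' := T ⊔ R with hT'
  have hD0 : 0 < D := lt_of_le_of_lt (by have := dn_nonneg S T' z; positivity) h
  have hsub : cell T' z ⊆ cell T x := cell_mono le_sup_left hz
  have h1 := sum_dn S (le_sup_left : T ≤ T') x
  rw [← Finset.sum_sdiff hsub] at h1
  have h2 : ∑ y ∈ cell T' z, dn S T' y = (cell T' z).card * dn S T' z := by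
    rw [Finset.sum_congr rfl fun y hy => dn_eq hy, Finset.sum_const, nsmul_eq_mul]
  have h3 : ∑ y ∈ cell T x \ cell T' z, dn S T' y ≤
      ((cell T x \ cell T' z).card : ℝ) * ((1 + 1 / 2 ^ (K + 1)) * D) := by
    rw [← nsmul_eq_mul]
    exact Finset.sum_le_card_nsmul _ _ _ fun y _ => (hcon y).le
  have h4 : ((cell T x \ cell T' z).card : ℝ) = (cell T x).card - (cell T' z).card := by
    rw [Finset.card_sdiff_of_subset hsub, Nat.cast_sub (Finset.card_le_card hsub)]
  rw [h2] at h1
  rw [h4] at h3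
  -- the sizes
  have hc : ((cell T' z).card : ℝ) * 2 ^ finrank (ZMod 2) T' = 2 ^ finrank (ZMod 2) E := by
    exact_mod_cast card_cell T' z
  have hc' : ((cell T x).card : ℝ) * 2 ^ finrank (ZMod 2) T =
      2 ^ finrank (ZMod 2) E := by exact_mod_cast card_cell T x
  have hdim : finrank (ZMod 2) T' ≤ finrank (ZMod 2) T + K :=
    (Submodule.finrank_add_le_finrank_add_finrank T R).trans (by omega)
  have hpos : (0 : ℝ) < (cell T' z).card := by
    exact_mod_cast Finset.card_pos.2 ⟨z, mem_cell_self _ _⟩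
  have h5 : ((cell T x).card : ℝ) ≤ 2 ^ K * (cell T' z).card := by
    have e1 : ((cell T x).card : ℝ) * 2 ^ finrank (ZMod 2) T ≤
        2 ^ K * (cell T' z).card * 2 ^ finrank (ZMod 2) T := by
      rw [hc', ← hc]
      have e2 : (2 : ℝ) ^ finrank (ZMod 2) T' ≤ 2 ^ (finrank (ZMod 2) T + K) :=
        pow_le_pow_right₀ (by norm_num) hdim
      rw [pow_add] at e2
      nlinarith
    exact le_of_mul_le_mul_right e1 (by positivity)
  have h6 : (cell T x).card * D ≤ ((cell T x).card - (cell T' z).card) *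
      ((1 + 1 / 2 ^ (K + 1)) * D) + (cell T' z).card * dn S T' z := by
    rw [← h1]
    linarith
  have h7 : (cell T x).card * (1 / 2 ^ (K + 1) : ℝ) ≤ (cell T' z).card / 2 := by
    have e3 : (2 : ℝ) ^ K * (1 / 2 ^ (K + 1)) = 1 / 2 := by
      rw [pow_succ]
      field_simp
    have e4 : (cell T x).card * (1 / 2 ^ (K + 1) : ℝ) ≤
        2 ^ K * (cell T' z).card * (1 / 2 ^ (K + 1)) :=
      mul_le_mul_of_nonneg_right h5 (by positivity)
    calc (cell T x).card * (1 / 2 ^ (K + 1) : ℝ) ≤ 2 ^ K * (cell T' z).card * (1 / 2 ^ (K + 1)) := e4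
      _ = (cell T' z).card * (2 ^ K * (1 / 2 ^ (K + 1))) := by ring
      _ = _ := by rw [e3]; ring
  have h8 : (0 : ℝ) < (cell T' z).card * (1 / 2 ^ (K + 1)) := by positivity
  have h9 : (cell T' z).card * dn S T' z < (cell T' z).card * (D / 2) := by
    apply mul_lt_mul_of_pos_left _ hpos
    linarith
  nlinarith

/-- A dense set has a cell in which it is at least as dense, and all of whose subcells of small
codimension have at least half of the density. -/
theorem exists_cell (S : Finset E) (K d : ℕ)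
    (hS : (2 : ℝ) ^ finrank (ZMod 2) E < (S.card : ℝ) * 2 ^ d) :
    ∃ (T : Submodule (ZMod 2) (Dual (ZMod 2) E)) (x : E),
      finrank (ZMod 2) T ≤ K * (2 ^ (K + 1) * d) ∧ (S.card : ℝ) ≤ dn S T x ∧
      ∀ R : Submodule (ZMod 2) (Dual (ZMod 2) E), finrank (ZMod 2) R ≤ K →
        ∀ z ∈ cell T x, dn S T x ≤ 2 * dn S (T ⊔ R) z := by
  classical
  have : FiniteDimensional (ZMod 2) E := Module.Finite.of_finite
  by_contra hcon
  push Not at hcon
  have key : ∀ s : ℕ, s ≤ 2 ^ (K + 1) * d →
      ∃ (T : Submodule (ZMod 2) (Dual (ZMod 2) E)) (x : E), finrank (ZMod 2) T ≤ K * s ∧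
        (1 + 1 / 2 ^ (K + 1)) ^ s * (S.card : ℝ) ≤ dn S T x := by
    intro s
    induction s with
    | zero =>
      intro _
      refine ⟨⊥, 0, by rw [finrank_bot]; omega, ?_⟩
      rw [pow_zero, one_mul, dn, finrank_bot, pow_zero, mul_one]
      apply le_of_eq
      congr 2
      ext y
      rw [Finset.mem_inter, mem_cell]
      constructor
      · intro hy
        refine ⟨fun t ht => ?_, hy⟩
        rw [(Submodule.mem_bot _).1 ht]
        rfl
      · exact fun hy => hy.2
    | succ s ih =>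
      intro hs
      obtain ⟨T, x, h1, h2⟩ := ih (by omega)
      have h3 : (S.card : ℝ) ≤ dn S T x := by
        refine le_trans ?_ h2
        have e1 : (1 : ℝ) ≤ (1 + 1 / 2 ^ (K + 1)) ^ s := by
          apply one_le_pow₀
          have : (0 : ℝ) ≤ 1 / 2 ^ (K + 1) := by positivity
          linarith
        have e2 : (0 : ℝ) ≤ S.card := Nat.cast_nonneg _
        nlinarith
      obtain ⟨R, hR, z, hz, h4⟩ := hcon T x
        (h1.trans (Nat.mul_le_mul_left _ (by omega))) h3
      obtain ⟨y, hy⟩ := dn_step hR hz h4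
      refine ⟨T ⊔ R, y, ?_, ?_⟩
      · have := Submodule.finrank_add_le_finrank_add_finrank T R
        rw [Nat.mul_succ]
        omega
      · refine le_trans ?_ hy
        rw [pow_succ]
        have e1 : (0 : ℝ) ≤ 1 + 1 / 2 ^ (K + 1) := by positivity
        have := mul_le_mul_of_nonneg_left h2 e1
        linarith
  obtain ⟨T, x, -, h1⟩ := key _ (le_refl _)
  have h2 := dn_le S T x
  have h3 : (2 : ℝ) ≤ (1 + 1 / 2 ^ (K + 1)) ^ (2 ^ (K + 1)) := by
    have e1 := one_add_mul_le_pow (a := (1 / 2 ^ (K + 1) : ℝ))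
      (le_trans (by norm_num) (by positivity : (0 : ℝ) ≤ 1 / 2 ^ (K + 1))) (2 ^ (K + 1))
    have e2 : ((2 ^ (K + 1) : ℕ) : ℝ) * (1 / 2 ^ (K + 1)) = 1 := by
      push_cast
      field_simp
    rw [e2] at e1
    linarith
  have h4 : (2 : ℝ) ^ d ≤ (1 + 1 / 2 ^ (K + 1)) ^ (2 ^ (K + 1) * d) := by
    rw [pow_mul]
    exact pow_le_pow_left₀ (by norm_num) h3 d
  have h5 : (0 : ℝ) ≤ S.card := Nat.cast_nonneg _
  have h6 : (2 : ℝ) ^ d * S.card ≤ 2 ^ finrank (ZMod 2) E :=
    (mul_le_mul_of_nonneg_right h4 h5).trans (h1.trans h2)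
  linarith

end Pool.Agent.WRL
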