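import Pool.Agent.WRL.Count
import Pool.Agent.WRL.Cells

set_option autoImplicit false

/-!
# Pairs of common zeros in a cell
-/

namespace Pool.Agent.WRL

open Module

section

variable {F : Type} [AddCommGroup F] [Module (ZMod 2) F] [Fintype F] {m : ℕ}

/-- The number of the common zeros of two families of quadratic functions. -/
theorem card_common {Q₁ Q₂ : Fin m → F → ZMod 2}
    {B₁ B₂ : (Fin m → ZMod 2) → F →ₗ[ZMod 2] Dual (ZMod 2) F}
    (hQ₁ : ∀ μ, IsQ (qm Q₁ μ) (B₁ μ)) (hQ₂ : ∀ ν, IsQ (qm Q₂ ν) (B₂ ν))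
    (h1 : ∀ ν, ν ≠ 0 → finrank (ZMod 2) (LinearMap.ker (B₂ ν)) + 2 * m ≤ finrank (ZMod 2) F)
    (h2 : ∀ μ ν, μ ≠ 0 →
      finrank (ZMod 2) (LinearMap.ker (B₁ μ + B₂ ν)) + 4 * m ≤ finrank (ZMod 2) F)
    [DecidablePred fun x : F => (∀ j, Q₁ j x = 0) ∧ ∀ j, Q₂ j x = 0] :
    2 ^ m * 2 ^ m * ((Finset.univ.filter fun x : F =>
      (∀ j, Q₁ j x = 0) ∧ ∀ j, Q₂ j x = 0).card : ℝ) ≤ 3 * 2 ^ finrank (ZMod 2) F := by
  classical
  have : FiniteDimensional (ZMod 2) F := Module.Finite.of_finite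
  set n := finrank (ZMod 2) F with hn0
  have hF : (Fintype.card F : ℝ) = 2 ^ n := by
    rw [Module.card_eq_pow_finrank (K := ZMod 2), ZMod.card]
    push_cast
    rfl
  have h3 : 2 ^ m * 2 ^ m * ((Finset.univ.filter fun x : F =>
      (∀ j, Q₁ j x = 0) ∧ ∀ j, Q₂ j x = 0).card : ℝ) =
      ∑ μ : Fin m → ZMod 2, ∑ ν : Fin m → ZMod 2, ∑ x : F, sg (qm Q₁ μ x + qm Q₂ ν x) := by
    have e1 : ∀ x : F, ∑ μ : Fin m → ZMod 2, ∑ ν : Fin m → ZMod 2,
        sg (qm Q₁ μ x + qm Q₂ ν x) =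
        if (∀ j, Q₁ j x = 0) ∧ ∀ j, Q₂ j x = 0 then (2 : ℝ) ^ m * 2 ^ m else 0 := by
      intro x
      have e2 : ∑ μ : Fin m → ZMod 2, sg (qm Q₁ μ x) =
        if ∀ j, Q₁ j x = 0 then (2 : ℝ) ^ m else 0 := ind fun j => Q₁ j x
      have e3 : ∑ μ : Fin m → ZMod 2, sg (qm Q₂ μ x) =
        if ∀ j, Q₂ j x = 0 then (2 : ℝ) ^ m else 0 := ind fun j => Q₂ j x
      simp only [sg_add]
      rw [← Finset.sum_mul_sum, e2, e3]
      by_cases p1 : ∀ j, Q₁ j x = 0
      · by_cases p2 : ∀ j, Q₂ j x = 0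
        · rw [if_pos p1, if_pos p2, if_pos ⟨p1, p2⟩]
        · have hne : ¬ ((∀ j, Q₁ j x = 0) ∧ ∀ j, Q₂ j x = 0) := fun h => p2 h.2
          rw [if_neg hne, if_neg p2, mul_zero]
      · have hne : ¬ ((∀ j, Q₁ j x = 0) ∧ ∀ j, Q₂ j x = 0) := fun h => p1 h.1
        rw [if_neg hne, if_neg p1, zero_mul]
    have e4 : ∑ μ : Fin m → ZMod 2, ∑ ν : Fin m → ZMod 2, ∑ x : F,
        sg (qm Q₁ μ x + qm Q₂ ν x) = ∑ x : F, ∑ μ : Fin m → ZMod 2, ∑ ν : Fin m → ZMod 2,
        sg (qm Q₁ μ x + qm Q₂ ν x) := by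
      rw [Finset.sum_comm]
      conv_lhs =>
        enter [2, ν]
        rw [Finset.sum_comm]
      rw [Finset.sum_comm]
      refine Finset.sum_congr rfl fun x _ => ?_
      rw [Finset.sum_comm]
    rw [e4, Finset.sum_congr rfl fun x _ => e1 x, ← Finset.sum_filter, Finset.sum_const,
      nsmul_eq_mul, mul_comm]
  have h4 : ∀ μ ν : Fin m → ZMod 2, ∑ x : F, sg (qm Q₁ μ x + qm Q₂ ν x) ≤
      2 ^ n / 2 ^ (2 * m) + ((if μ = 0 then (2 : ℝ) ^ n / 2 ^ m else 0) +
        if μ = 0 then (if ν = 0 then (2 : ℝ) ^ n else 0) else 0) := by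
    intro μ ν
    have hq : IsQ (fun x => qm Q₁ μ x + qm Q₂ ν x) (B₁ μ + B₂ ν) := (hQ₁ μ).add (hQ₂ ν)
    have hp1 : (0 : ℝ) ≤ 2 ^ n / 2 ^ (2 * m) := by positivity
    have hp2 : (0 : ℝ) ≤ 2 ^ n / 2 ^ m := by positivity
    by_cases hμ : μ = 0
    · by_cases hν : ν = 0
      · rw [if_pos hμ, if_pos hμ, if_pos hν, hμ, hν]
        simp only [qm_zero, add_zero, sg_zero, Finset.sum_const, Finset.card_univ, nsmul_eq_mul,
          mul_one, hF]
        linarith
      · rw [if_pos hμ, if_pos hμ, if_neg hν]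
        have h5 := bias (hQ₂ ν)
        rw [hF] at h5
        have h7 := h1 ν hν
        have h8 := sq_bound (k := m) h5 (by omega)
        have h9 := le_abs_self (∑ x : F, sg (qm Q₂ ν x))
        rw [hμ]
        simp only [qm_zero, zero_add]
        linarith
    · rw [if_neg hμ, if_neg hμ]
      have h5 := bias hq
      rw [hF] at h5
      have h7 := h2 μ ν hμ
      have h8 := sq_bound (k := 2 * m) h5 (by omega)
      have h9 := le_abs_self (∑ x : F, sg (qm Q₁ μ x + qm Q₂ ν x))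
      linarith
  rw [h3]
  refine (Finset.sum_le_sum fun (μ : Fin m → ZMod 2) (_ : μ ∈ Finset.univ) =>
    Finset.sum_le_sum fun (ν : Fin m → ZMod 2) (_ : ν ∈ Finset.univ) => h4 μ ν).trans ?_
  have e1 : ∀ μ : Fin m → ZMod 2, ∑ ν : Fin m → ZMod 2, (2 ^ n / 2 ^ (2 * m) +
      ((if μ = 0 then (2 : ℝ) ^ n / 2 ^ m else 0) +
        if μ = 0 then (if ν = 0 then (2 : ℝ) ^ n else 0) else 0)) =
      2 ^ m * (2 ^ n / 2 ^ (2 * m)) + if μ = 0 then (2 ^ n + 2 ^ n : ℝ) else 0 := by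
    intro μ
    rw [Finset.sum_add_distrib, Finset.sum_add_distrib]
    simp only [Finset.sum_const, Finset.card_univ, Fintype.card_pi, ZMod.card, Finset.prod_const,
      Fintype.card_fin, nsmul_eq_mul, Nat.cast_pow, Nat.cast_ofNat]
    congr 1
    by_cases hμ : μ = 0
    · simp only [hμ, if_true]
      rw [Finset.sum_ite_eq' Finset.univ (0 : Fin m → ZMod 2)]
      simp only [Finset.mem_univ, if_true]
      congr 1
      field_simp
    · simp [hμ]
  rw [Finset.sum_congr rfl fun μ _ => e1 μ, Finset.sum_add_distrib,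
    Finset.sum_ite_eq' Finset.univ (0 : Fin m → ZMod 2)]
  simp only [Finset.sum_const, Finset.card_univ, Fintype.card_pi, ZMod.card, Finset.prod_const,
      Fintype.card_fin, nsmul_eq_mul, Nat.cast_pow, Nat.cast_ofNat, Finset.mem_univ, if_true]
  have e2 : (2 : ℝ) ^ m * (2 ^ m * (2 ^ n / 2 ^ (2 * m))) = 2 ^ n := by
    rw [two_mul, pow_add]; field_simp
  rw [e2]
  linarith

end

section

variable {E F : Type} [AddCommGroup E] [Module (ZMod 2) E] [AddCommGroup F] [Module (ZMod 2) F]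

lemma IsQ.comp' {q : E → ZMod 2} {B : E →ₗ[ZMod 2] Dual (ZMod 2) E} (h : IsQ q B)
    (f : F →ₗ[ZMod 2] E) (c : E) : IsQ (fun x => q (f x + c)) (f.dualMap ∘ₗ B ∘ₗ f) := by
  intro u x
  simp only [LinearMap.comp_apply, LinearMap.dualMap_apply, map_zero, map_add, zero_add]
  rw [show f u + f x + c = f u + (f x + c) by abel, h (f u) (f x + c), h (f u) c, map_add]
  have h1 := add_self_zmod (q c)
  have h2 := add_self_zmod ((B (f u)) c)
  have h3 := add_self_zmod (q 0)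
  linear_combination (-1 : ZMod 2) * h1 - 0 * h2 - 0 * h3

variable [FiniteDimensional (ZMod 2) E] [FiniteDimensional (ZMod 2) F]

lemma finrank_ker_dualMap' (f : F →ₗ[ZMod 2] E) :
    finrank (ZMod 2) (LinearMap.ker f.dualMap) + finrank (ZMod 2) (LinearMap.range f) =
      finrank (ZMod 2) E := by
  have h2 := LinearMap.finrank_range_add_finrank_ker f.dualMap
  have h3 := LinearMap.finrank_range_dualMap_eq_finrank_range (f := f)
  have h4 : finrank (ZMod 2) (Dual (ZMod 2) E) = finrank (ZMod 2) E := Subspace.dual_finrank_eq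
  omega

lemma rank_one' (f : F →ₗ[ZMod 2] E) (B : E →ₗ[ZMod 2] Dual (ZMod 2) E) :
    finrank (ZMod 2) (LinearMap.ker (f.dualMap ∘ₗ B ∘ₗ f)) + finrank (ZMod 2) F ≤
      2 * finrank (ZMod 2) (LinearMap.ker f) + finrank (ZMod 2) (LinearMap.ker B) +
        finrank (ZMod 2) E := by
  have h1 := finrank_ker_comp (B ∘ₗ f) f.dualMap
  have h2 := finrank_ker_comp f B
  have h3 := finrank_ker_dualMap' f
  have h4 := LinearMap.finrank_range_add_finrank_ker f
  omega

lemma rank_two' (f : F →ₗ[ZMod 2] E) (B₁ : F →ₗ[ZMod 2] Dual (ZMod 2) F)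
    (B₂ : E →ₗ[ZMod 2] Dual (ZMod 2) E) :
    finrank (ZMod 2) (LinearMap.ker (B₁ + f.dualMap ∘ₗ B₂ ∘ₗ f)) +
      finrank (ZMod 2) (LinearMap.ker f) ≤
        finrank (ZMod 2) F + finrank (ZMod 2) (LinearMap.ker B₁) := by
  have h1 := LinearMap.finrank_range_add_finrank_ker f
  have h2 := finrank_le_of_map f (LinearMap.ker (B₁ + f.dualMap ∘ₗ B₂ ∘ₗ f)) (LinearMap.ker B₁)
    (LinearMap.range f) (fun x _ => ⟨x, rfl⟩) (by
      intro x hx hL
      rw [LinearMap.mem_ker] at hx ⊢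
      rw [LinearMap.add_apply, LinearMap.comp_apply, LinearMap.comp_apply, hL, map_zero, map_zero,
        add_zero] at hx
      exact hx)
  omega

/-- The kernel of the restriction of a linear map to a subspace. -/
lemma finrank_ker_comp_subtype (L : E →ₗ[ZMod 2] E) (V : Submodule (ZMod 2) E) :
    finrank (ZMod 2) (LinearMap.ker L) + finrank (ZMod 2) V ≤
      finrank (ZMod 2) (LinearMap.ker (L ∘ₗ V.subtype)) + finrank (ZMod 2) E ∧
    finrank (ZMod 2) (LinearMap.ker (L ∘ₗ V.subtype)) ≤ finrank (ZMod 2) (LinearMap.ker L) := by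
  have h1 : Submodule.map V.subtype (LinearMap.ker (L ∘ₗ V.subtype)) = LinearMap.ker L ⊓ V := by
    ext x
    simp only [Submodule.mem_map, LinearMap.mem_ker, LinearMap.comp_apply, Submodule.mem_inf]
    constructor
    · rintro ⟨y, h2, rfl⟩
      exact ⟨h2, y.2⟩
    · rintro ⟨h2, h3⟩
      exact ⟨⟨x, h3⟩, h2, rfl⟩
  have h2 : finrank (ZMod 2) ↥(LinearMap.ker L ⊓ V) =
      finrank (ZMod 2) (LinearMap.ker (L ∘ₗ V.subtype)) := by
    rw [← h1, Submodule.finrank_map_subtype_eq]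
  have h3 := Submodule.finrank_sup_add_finrank_inf_eq (LinearMap.ker L) V
  have h4 : finrank (ZMod 2) ↥(LinearMap.ker L ⊔ V) ≤ finrank (ZMod 2) E := Submodule.finrank_le _
  have h5 : finrank (ZMod 2) ↥(LinearMap.ker L ⊓ V) ≤ finrank (ZMod 2) (LinearMap.ker L) :=
    Submodule.finrank_mono inf_le_left
  omega

end

variable {E : Type} [AddCommGroup E] [Module (ZMod 2) E] [Fintype E] {m : ℕ}
  {Q : Fin m → E → ZMod 2} {B : Fin m → E →ₗ[ZMod 2] Dual (ZMod 2) E}

/-- The common zeros in a cell which an affine map sends to common zeros. -/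
theorem cell_pairs (hQ : ∀ j, IsQ (Q j) (B j)) {ρ : ℕ}
    (hB : ∀ μ : Fin m → ZMod 2, μ ≠ 0 → finrank (ZMod 2) (LinearMap.ker (Bm B μ)) ≤ ρ)
    (L : E →ₗ[ZMod 2] E) (c : E) (T : Submodule (ZMod 2) (Dual (ZMod 2) E)) {c₀ : ℕ}
    (hT : finrank (ZMod 2) T ≤ c₀) (h1 : 4 * m + ρ + 2 * c₀ ≤ finrank (ZMod 2) (LinearMap.ker L))
    (h2 : 2 * finrank (ZMod 2) (LinearMap.ker L) + ρ + 2 * c₀ + 2 * m ≤ finrank (ZMod 2) E)
    (z₀ : E) [DecidablePred fun x : E => (∀ j, Q j x = 0) ∧ ∀ j, Q j (L x + c) = 0] :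
    2 ^ m * 2 ^ m * (((cell T z₀).filter fun x : E =>
      (∀ j, Q j x = 0) ∧ ∀ j, Q j (L x + c) = 0).card * 2 ^ finrank (ZMod 2) T : ℝ) ≤
        3 * 2 ^ finrank (ZMod 2) E := by
  classical
  have : FiniteDimensional (ZMod 2) E := Module.Finite.of_finite
  set V : Submodule (ZMod 2) E := T.dualCoannihilator with hV
  have hVdim : finrank (ZMod 2) T + finrank (ZMod 2) V = finrank (ZMod 2) E :=
    Subspace.finrank_add_finrank_dualCoannihilator_eq T
  -- the two maps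
  set f : V →ₗ[ZMod 2] E := L ∘ₗ V.subtype with hf
  set β₁ : (Fin m → ZMod 2) → V →ₗ[ZMod 2] Dual (ZMod 2) V :=
    fun μ => V.subtype.dualMap ∘ₗ Bm B μ ∘ₗ V.subtype with hβ₁
  set β₂ : (Fin m → ZMod 2) → V →ₗ[ZMod 2] Dual (ZMod 2) V :=
    fun μ => f.dualMap ∘ₗ Bm B μ ∘ₗ f with hβ₂
  have hQ₁ : ∀ μ, IsQ (qm (fun j (u : V) => Q j (V.subtype u + z₀)) μ) (β₁ μ) :=
    fun μ => (isQ_qm hQ μ).comp' V.subtype z₀
  have hQ₂ : ∀ μ, IsQ (qm (fun j (u : V) => Q j (f u + (L z₀ + c))) μ) (β₂ μ) :=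
    fun μ => (isQ_qm hQ μ).comp' f (L z₀ + c)
  have hk := finrank_ker_comp_subtype L V
  rw [← hf] at hk
  have hker1 : ∀ μ, μ ≠ 0 → finrank (ZMod 2) (LinearMap.ker (β₁ μ)) ≤
      ρ + finrank (ZMod 2) T := by
    intro μ hμ
    have h3 := rank_one' V.subtype (Bm B μ)
    have h4 := hB μ hμ
    have h5 : finrank (ZMod 2) (LinearMap.ker V.subtype) = 0 := by
      rw [Submodule.ker_subtype, finrank_bot]
    have h6 : finrank (ZMod 2) (LinearMap.ker (β₁ μ)) + finrank (ZMod 2) V ≤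
        2 * finrank (ZMod 2) (LinearMap.ker V.subtype) + finrank (ZMod 2) (LinearMap.ker (Bm B μ)) +
        finrank (ZMod 2) E := h3
    omega
  have h3 := card_common hQ₁ hQ₂ (by
    intro ν hν
    have h3 : finrank (ZMod 2) (LinearMap.ker (β₂ ν)) + finrank (ZMod 2) V ≤
        2 * finrank (ZMod 2) (LinearMap.ker f) + finrank (ZMod 2) (LinearMap.ker (Bm B ν)) +
        finrank (ZMod 2) E := rank_one' f (Bm B ν)
    have h4 := hB ν hν
    omega) (by
    intro μ ν hμ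
    have h3 : finrank (ZMod 2) (LinearMap.ker (β₁ μ + β₂ ν)) + finrank (ZMod 2) (LinearMap.ker f) ≤
        finrank (ZMod 2) V + finrank (ZMod 2) (LinearMap.ker (β₁ μ)) := rank_two' f (β₁ μ) (Bm B ν)
    have h4 := hker1 μ hμ
    omega)
  have h4 : ((cell T z₀).filter fun x : E =>
      (∀ j, Q j x = 0) ∧ ∀ j, Q j (L x + c) = 0).card = (Finset.univ.filter fun u : V =>
      (∀ j, Q j (V.subtype u + z₀) = 0) ∧ ∀ j, Q j (f u + (L z₀ + c)) = 0).card := by
    symm
    refine Finset.card_bij (fun u _ => V.subtype u + z₀) ?_ ?_ ?_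
    · intro u hu
      rw [Finset.mem_filter] at hu ⊢
      refine ⟨?_, hu.2.1, ?_⟩
      · rw [mem_cell]
        intro t ht
        rw [map_add, Submodule.subtype_apply, (Submodule.mem_dualCoannihilator _).1 u.2 t ht,
          zero_add]
      · intro j
        have := hu.2.2 j
        rw [map_add, add_assoc]
        exact this
    · intro u _ v _ huv
      exact Subtype.ext (add_right_cancel huv)
    · intro x hx
      rw [Finset.mem_filter] at hx
      have hmem : x - z₀ ∈ V := by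
        rw [hV, Submodule.mem_dualCoannihilator]
        intro t ht
        rw [map_sub, mem_cell.1 hx.1 t ht, sub_self]
      refine ⟨⟨x - z₀, hmem⟩, ?_, ?_⟩
      · rw [Finset.mem_filter]
        refine ⟨Finset.mem_univ _, ?_, ?_⟩
        · intro j
          rw [Submodule.subtype_apply]
          simp only [sub_add_cancel]
          exact hx.2.1 j
        · intro j
          have := hx.2.2 j
          rw [hf, LinearMap.comp_apply, Submodule.subtype_apply, ← add_assoc, ← map_add]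
          simp only [sub_add_cancel]
          exact this
      · simp
  rw [h4, ← mul_assoc]
  have h5 : (2 : ℝ) ^ finrank (ZMod 2) E =
      2 ^ finrank (ZMod 2) V * 2 ^ finrank (ZMod 2) T := by
    rw [← pow_add]
    congr 1
    omega
  rw [h5, ← mul_assoc]
  exact mul_le_mul_of_nonneg_right h3 (by positivity)

end Pool.Agent.WRL
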