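import Pool.Agent.WRL.CutN
import Pool.Agent.WRL.AffineN
import Pool.Agent.WRL.PairG
import Pool.Agent.WRL.Cover
import Pool.Agent.WRL.Lower

set_option autoImplicit false

/-!
# The lower bound for the inputs which have an accepting walk with few redundant tests
-/

namespace Pool.Agent.WRL

open Module

variable {E : Type} [AddCommGroup E] [Module (ZMod 2) E]

namespace Prog

variable (P : Prog E)

lemma rev_stepTop {x : E} {R : Submodule (ZMod 2) (Dual (ZMod 2) E)} {u w : P.V} :
    P.rev.StepTop x R u w ↔ P.StepBot x R w u := by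
  have h : P.rev.Pre u = P.Post u := P.rev_pre u
  constructor
  · rintro ⟨lab, h1, h2⟩
    refine ⟨lab, h1, fun t ht => ⟨(h2 t ht).1, fun h3 => (h2 t ht).2 ?_⟩⟩
    rw [h]
    exact h3
  · rintro ⟨lab, h1, h2⟩
    refine ⟨lab, h1, fun t ht => ⟨(h2 t ht).1, fun h3 => (h2 t ht).2 ?_⟩⟩
    rw [← h]
    exact h3

lemma rev_accTop {k : ℕ} {x : E} : P.rev.AccTop k x ↔ P.AccBot k x := by
  have key : ∀ R : Submodule (ZMod 2) (Dual (ZMod 2) E),
      Relation.ReflTransGen (P.rev.StepTop x R) P.rev.start P.rev.acc ↔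
      Relation.ReflTransGen (P.StepBot x R) P.start P.acc := by
    intro R
    have e : P.rev.StepTop x R = Function.swap (P.StepBot x R) := by
      funext u w
      exact propext P.rev_stepTop
    rw [e]
    exact Relation.reflTransGen_swap (r := P.StepBot x R)
  constructor
  · rintro ⟨R, h1, h2⟩
    exact ⟨R, h1, (key R).1 h2⟩
  · rintro ⟨R, h1, h2⟩
    exact ⟨R, h1, (key R).2 h2⟩

end Prog

variable {m : ℕ} {Q : Fin m → E → ZMod 2} {B : Fin m → E →ₗ[ZMod 2] Dual (ZMod 2) E} [Fintype E]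

/-- The lower bound, top version. The program accepts only common zeros of the quadratic functions
among the inputs at which the forms of `H` have the same values as at `e`. -/
theorem lower_topK (hQ : ∀ j, IsQ (Q j) (B j)) {ρ : ℕ}
    (hB : ∀ μ : Fin m → ZMod 2, μ ≠ 0 → finrank (ZMod 2) (LinearMap.ker (Bm B μ)) ≤ ρ)
    (k h : ℕ) (H : Submodule (ZMod 2) (Dual (ZMod 2) E)) (hH : finrank (ZMod 2) H ≤ h) (e : E)
    (hn : 10 * m + 3 * ρ + 6 * (k + h) ≤ finrank (ZMod 2) E)
    (P : Prog E) (hacc : ∀ z, P.Acc z → (∀ φ ∈ H, φ z = φ e) → ∀ j, Q j z = 0)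
    [DecidablePred fun z : E => P.AccTop k z ∧ ∀ φ ∈ H, φ z = φ e] :
    2 ^ m * 2 ^ m * ((Finset.univ.filter fun z : E =>
      P.AccTop k z ∧ ∀ φ ∈ H, φ z = φ e).card : ℝ) ≤
      P.size * ((∑ i ∈ Finset.range (k + h + 1), (finrank (ZMod 2) E).choose i : ℕ) *
        (3 * 2 ^ finrank (ZMod 2) E)) := by
  classical
  have : FiniteDimensional (ZMod 2) E := Module.Finite.of_finite
  let _ := P.fin
  set n := finrank (ZMod 2) E with hn0
  set K := k + h with hK
  set a := 4 * m + ρ + 2 * K with ha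
  set r := n - a with hr
  set X := {z : E // P.AccTop k z ∧ ∀ φ ∈ H, φ z = φ e} with hX
  have hcut : ∀ z : X, ∃ (v : P.V) (R G : Submodule (ZMod 2) (Dual (ZMod 2) E)),
      finrank (ZMod 2) R ≤ k ∧
      P.Run z.1 P.start v ∧ finrank (ZMod 2) (P.Pre0 v) ≤ r ∧ Disjoint (P.Pre0 v) G ∧
      finrank (ZMod 2) G + r ≤ finrank (ZMod 2) E ∧
      ∀ y : E, (∀ g ∈ G, g y = g z.1) → (∀ g ∈ R, g y = g z.1) → P.Run y v P.acc := by
    intro z
    obtain ⟨R, h1, h2⟩ := z.2.1
    obtain ⟨v, G, h3⟩ := P.cutN h2 (r := r) (Nat.sub_le _ _)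
    exact ⟨v, R, G, h1, h3⟩
  choose v hv using hcut
  have hsum : (Finset.univ.filter fun z : E => P.AccTop k z ∧ ∀ φ ∈ H, φ z = φ e).card =
      ∑ u : P.V, (Finset.univ.filter fun z : X => v z = u).card := by
    rw [← Fintype.card_subtype, ← Finset.card_univ]
    exact Finset.card_eq_sum_card_fiberwise (fun _ _ => Finset.mem_univ _)
  have hfib : ∀ u : P.V, 2 ^ m * 2 ^ m *
      ((Finset.univ.filter fun z : X => v z = u).card : ℝ) ≤
        (∑ i ∈ Finset.range (K + 1), n.choose i : ℕ) * (3 * 2 ^ n) := by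
    intro u
    set S : Finset E := (Finset.univ.filter fun z : X => v z = u).image Subtype.val with hS
    have hScard : S.card = (Finset.univ.filter fun z : X => v z = u).card :=
      Finset.card_image_of_injective _ Subtype.val_injective
    rw [← hScard]
    -- the cell of a point
    have hcell : ∀ z ∈ S, ∃ R' : Submodule (ZMod 2) (Dual (ZMod 2) E), finrank (ZMod 2) R' ≤ K ∧
        2 ^ m * 2 ^ m * ((cell R' z ∩ S).card : ℝ) ≤ 3 * 2 ^ n := by
      intro z hz
      rw [hS, Finset.mem_image] at hz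
      obtain ⟨w₀, hw₀, rfl⟩ := hz
      rw [Finset.mem_filter] at hw₀
      obtain ⟨R, G, hR, -, h2, h3, h4, h5⟩ := hv w₀
      rw [hw₀.2] at h2 h3 h5
      obtain ⟨L, p, hL, hpW, hpG, hp⟩ := exists_proj h3 h2 h4
      set c : E := w₀.1 - L w₀.1 with hc
      set R' := Submodule.map p (R ⊔ H) with hR'
      have hR'dim : finrank (ZMod 2) R' ≤ K := by
        refine (Submodule.finrank_map_le p _).trans ?_
        refine (Submodule.finrank_add_le_finrank_add_finrank _ _).trans ?_
        omega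
      have hA : ∀ z ∈ cell R' w₀.1, ∀ φ ∈ R ⊔ H, φ (L z + c) = φ w₀.1 := by
        intro z hz φ hφ
        rw [hc, map_add, map_sub, hp, hp, mem_cell.1 hz (p φ) (Submodule.mem_map_of_mem hφ)]
        ring
      have hpairs := cell_pairs hQ hB L c R' hR'dim (by omega) (by omega) w₀.1
      have hsub : cell R' w₀.1 ∩ S ⊆ (cell R' w₀.1).filter fun x : E =>
          (∀ j, Q j x = 0) ∧ ∀ j, Q j (L x + c) = 0 := by
        intro z hz
        rw [Finset.mem_inter] at hz
        obtain ⟨hz1, hz2⟩ := hz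
        rw [hS, Finset.mem_image] at hz2
        obtain ⟨w, hw, rfl⟩ := hz2
        rw [Finset.mem_filter] at hw ⊢
        refine ⟨hz1, hacc w.1 (P.accTop_acc w.2.1) w.2.2, hacc (L w.1 + c) ?_ ?_⟩
        · obtain ⟨-, -, -, h6, -⟩ := hv w
          rw [hw.2] at h6
          have h7 : P.Run (L w.1 + c) P.start u := by
            by_cases hu : u = P.start
            · rw [hu]
              exact Relation.ReflTransGen.refl
            · have hu1 : P.Pre0 u = P.Pre u := by rw [Prog.Pre0, if_neg hu]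
              rw [hu1] at hpW
              refine P.run_transfer h6 fun φ hφ => ?_
              rw [hc, map_add, map_sub, hp, hp, hpW φ hφ]
              ring
          refine h7.trans (h5 _ (fun g hg => ?_) fun g hg =>
            hA w.1 hz1 g (Submodule.mem_sup_left hg))
          rw [hc, map_add, map_sub, hp, hp, hpG g hg]
          simp
        · intro φ hφ
          rw [hA w.1 hz1 φ (Submodule.mem_sup_right hφ)]
          exact w₀.2.2 φ hφ
      refine ⟨R', hR'dim, le_trans ?_ hpairs⟩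
      apply mul_le_mul_of_nonneg_left _ (by positivity)
      have h6 : ((cell R' w₀.1 ∩ S).card : ℝ) ≤ ((cell R' w₀.1).filter fun x : E =>
          (∀ j, Q j x = 0) ∧ ∀ j, Q j (L x + c) = 0).card := by
        exact_mod_cast Finset.card_le_card hsub
      refine h6.trans (le_mul_of_one_le_right (Nat.cast_nonneg _) ?_)
      exact one_le_pow₀ (by norm_num)
    choose! R' hR'1 hR'2 using hcell
    obtain ⟨I, hIS, hI, hcov⟩ := cover S R' hR'1
    have hsubI : S ⊆ I.biUnion fun z => cell (R' z) z ∩ S := by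
      intro x hx
      obtain ⟨z, hz, hxz⟩ := hcov x hx
      exact Finset.mem_biUnion.2 ⟨z, hz, Finset.mem_inter.2 ⟨hxz, hx⟩⟩
    have h1 : (S.card : ℝ) ≤ ∑ z ∈ I, ((cell (R' z) z ∩ S).card : ℝ) := by
      exact_mod_cast (Finset.card_le_card hsubI).trans Finset.card_biUnion_le
    have h2 : 2 ^ m * 2 ^ m * (S.card : ℝ) ≤ ∑ _z ∈ I, (3 * 2 ^ n : ℝ) := by
      refine (mul_le_mul_of_nonneg_left h1 (by positivity)).trans ?_
      rw [Finset.mul_sum]
      exact Finset.sum_le_sum fun z hz => hR'2 z (hIS hz)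
    rw [Finset.sum_const, nsmul_eq_mul] at h2
    refine h2.trans (mul_le_mul_of_nonneg_right ?_ (by positivity))
    exact_mod_cast hI
  rw [hsum]
  push_cast
  rw [Finset.mul_sum]
  refine (Finset.sum_le_sum fun u _ => hfib u).trans (le_of_eq ?_)
  rw [Finset.sum_const, nsmul_eq_mul, Finset.card_univ]
  push_cast
  rfl

/-- The lower bound, bottom version. -/
theorem lower_botK (hQ : ∀ j, IsQ (Q j) (B j)) {ρ : ℕ}
    (hB : ∀ μ : Fin m → ZMod 2, μ ≠ 0 → finrank (ZMod 2) (LinearMap.ker (Bm B μ)) ≤ ρ)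
    (k h : ℕ) (H : Submodule (ZMod 2) (Dual (ZMod 2) E)) (hH : finrank (ZMod 2) H ≤ h) (e : E)
    (hn : 10 * m + 3 * ρ + 6 * (k + h) ≤ finrank (ZMod 2) E)
    (P : Prog E) (hacc : ∀ z, P.Acc z → (∀ φ ∈ H, φ z = φ e) → ∀ j, Q j z = 0)
    [DecidablePred fun z : E => P.AccBot k z ∧ ∀ φ ∈ H, φ z = φ e] :
    2 ^ m * 2 ^ m * ((Finset.univ.filter fun z : E =>
      P.AccBot k z ∧ ∀ φ ∈ H, φ z = φ e).card : ℝ) ≤
      P.size * ((∑ i ∈ Finset.range (k + h + 1), (finrank (ZMod 2) E).choose i : ℕ) *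
        (3 * 2 ^ finrank (ZMod 2) E)) := by
  classical
  have h1 := lower_topK hQ hB k h H hH e hn P.rev (fun z hz => hacc z (P.rev_acc.1 hz))
  have h2 : (Finset.univ.filter fun z : E => P.rev.AccTop k z ∧ ∀ φ ∈ H, φ z = φ e) =
      Finset.univ.filter fun z : E => P.AccBot k z ∧ ∀ φ ∈ H, φ z = φ e := by
    ext z
    simp only [Finset.mem_filter, P.rev_accTop]
  rw [h2] at h1
  exact h1

end Pool.Agent.WRL
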