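import Pool.Agent.WRL.FamN
import Pool.Agent.WRL.LowerK

set_option autoImplicit false

/-!
# The lower bound for programs with few redundant tests
-/

namespace Pool.Agent.WRL

open Module

lemma card_coeffZero (t m : ℕ) (ht : 7 * m ≤ t) (hm : 0 < m) :
    (2 : ℝ) ^ (2 * (t + m)) ≤ 2 * 2 ^ m * (Nat.card {z // CoeffZero t m z} : ℝ) := by
  classical
  have hdim : finrank (ZMod 2) (Fin (t + m) ⊕ Fin (t + m) → ZMod 2) = 2 * (t + m) := by
    rw [Module.finrank_pi, Fintype.card_sum, Fintype.card_fin]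
    omega
  have h2 := card_zeros (m := m) (Q := fun j => qn (n := t + m) (cn t j))
    (B := fun j => Bn (cn t j)) (fun j => isQ_qn _) (ρ := 2 * m) (fun μ hμ => radicalN t μ hμ)
    (by rw [hdim]; omega)
  rw [hdim] at h2
  have e2 : Nat.card {z // CoeffZero t m z} =
      (Finset.univ.filter fun z : Fin (t + m) ⊕ Fin (t + m) → ZMod 2 =>
        ∀ j : Fin m, qn (cn t j) z = 0).card := by
    rw [Nat.card_eq_fintype_card, Fintype.card_subtype]
    congr 1
    ext z
    simp only [Finset.mem_filter, coeffZero_iff]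
  rw [← e2] at h2
  exact h2

lemma real_step {m s r a b : ℕ} {N : ℕ}
    (h1 : (2 : ℝ) ^ m * 2 ^ m * (a : ℝ) ≤ s * ((r : ℕ) * (3 * 2 ^ N)))
    (h2 : (2 : ℝ) ^ N ≤ 2 * 2 ^ m * (b : ℝ)) : 2 ^ m * a ≤ 6 * r * s * b := by
  have h3 : (0 : ℝ) < 2 ^ m := by positivity
  have h4 : (2 : ℝ) ^ m * ((2 : ℝ) ^ m * (a : ℝ)) ≤ 2 ^ m * (6 * r * s * (b : ℝ)) := by
    have h5 : (s : ℝ) * (r * (3 * 2 ^ N)) ≤ s * (r * (3 * (2 * 2 ^ m * (b : ℝ)))) := by
      apply mul_le_mul_of_nonneg_left _ (Nat.cast_nonneg _)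
      apply mul_le_mul_of_nonneg_left _ (Nat.cast_nonneg _)
      linarith
    nlinarith
  have h5 := le_of_mul_le_mul_left h4 h3
  exact_mod_cast h5

/-- A program which accepts only inputs with the property `CoeffZero` accepts a small part of them
with few redundant tests. -/
theorem one_sided_top (t m k : ℕ) (hm : 0 < m) (ht : 7 * m + 3 * k ≤ t)
    (P : Prog (Fin (t + m) ⊕ Fin (t + m) → ZMod 2)) (hacc : ∀ z, P.Acc z → CoeffZero t m z) :
    2 ^ m * Nat.card {z // P.AccTop k z} ≤
      6 * (∑ i ∈ Finset.range (k + 1), (2 * (t + m)).choose i) * P.size *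
        Nat.card {z // CoeffZero t m z} := by
  classical
  have hdim : finrank (ZMod 2) (Fin (t + m) ⊕ Fin (t + m) → ZMod 2) = 2 * (t + m) := by
    rw [Module.finrank_pi, Fintype.card_sum, Fintype.card_fin]
    omega
  have h1 := lower_topK (m := m) (Q := fun j => qn (n := t + m) (cn t j))
    (B := fun j => Bn (cn t j)) (fun j => isQ_qn _) (ρ := 2 * m) (fun μ hμ => radicalN t μ hμ)
    k 0 ⊥ (by rw [finrank_bot]) 0 (by rw [hdim]; omega) P
    (fun z hz _ => (coeffZero_iff z).1 (hacc z hz))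
  rw [hdim, Nat.add_zero] at h1
  have e1 : Nat.card {z // P.AccTop k z} = (Finset.univ.filter fun z => P.AccTop k z ∧
      ∀ φ ∈ (⊥ : Submodule (ZMod 2) (Dual (ZMod 2) (Fin (t + m) ⊕ Fin (t + m) → ZMod 2))),
        φ z = φ 0).card := by
    rw [Nat.card_eq_fintype_card, Fintype.card_subtype]
    congr 1
    ext z
    simp only [Finset.mem_filter, Submodule.mem_bot, forall_eq, LinearMap.zero_apply, and_true]
  rw [← e1] at h1
  exact real_step h1 (card_coeffZero t m (by omega) hm)

/-- The bottom version. -/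
theorem one_sided_bot (t m k : ℕ) (hm : 0 < m) (ht : 7 * m + 3 * k ≤ t)
    (P : Prog (Fin (t + m) ⊕ Fin (t + m) → ZMod 2)) (hacc : ∀ z, P.Acc z → CoeffZero t m z) :
    2 ^ m * Nat.card {z // P.AccBot k z} ≤
      6 * (∑ i ∈ Finset.range (k + 1), (2 * (t + m)).choose i) * P.size *
        Nat.card {z // CoeffZero t m z} := by
  have h1 := one_sided_top t m k hm ht P.rev (fun z hz => hacc z (P.rev_acc.1 hz))
  have e1 : Nat.card {z // P.rev.AccTop k z} = Nat.card {z // P.AccBot k z} :=
    Nat.card_congr (Equiv.subtypeEquivRight fun z => P.rev_accTop)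
  rw [e1] at h1
  exact h1

/-- Both versions. -/
theorem one_sided_both (t m k : ℕ) (hm : 0 < m) (ht : 7 * m + 3 * k ≤ t)
    (P : Prog (Fin (t + m) ⊕ Fin (t + m) → ZMod 2)) (hacc : ∀ z, P.Acc z → CoeffZero t m z) :
    2 ^ m * Nat.card {z // P.AccTop k z ∨ P.AccBot k z} ≤
      12 * (∑ i ∈ Finset.range (k + 1), (2 * (t + m)).choose i) * P.size *
        Nat.card {z // CoeffZero t m z} := by
  classical
  have h1 := one_sided_top t m k hm ht P hacc
  have h2 := one_sided_bot t m k hm ht P hacc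
  have h3 : Nat.card {z // P.AccTop k z ∨ P.AccBot k z} ≤
      Nat.card {z // P.AccTop k z} + Nat.card {z // P.AccBot k z} := by
    simp only [Nat.card_eq_fintype_card]
    exact Fintype.card_subtype_or _ _
  set r := ∑ i ∈ Finset.range (k + 1), (2 * (t + m)).choose i
  calc 2 ^ m * Nat.card {z // P.AccTop k z ∨ P.AccBot k z}
      ≤ 2 ^ m * (Nat.card {z // P.AccTop k z} + Nat.card {z // P.AccBot k z}) :=
        Nat.mul_le_mul_left _ h3
    _ = 2 ^ m * Nat.card {z // P.AccTop k z} + 2 ^ m * Nat.card {z // P.AccBot k z} := by ring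
    _ ≤ 6 * r * P.size * Nat.card {z // CoeffZero t m z} +
        6 * r * P.size * Nat.card {z // CoeffZero t m z} := Nat.add_le_add h1 h2
    _ = _ := by ring

/-- The lower bound for the programs which compute the function. -/
theorem exact_both (t m k : ℕ) (hm : 0 < m) (ht : 7 * m + 3 * k ≤ t)
    (P : Prog (Fin (t + m) ⊕ Fin (t + m) → ZMod 2)) (hacc : ∀ z, P.Acc z ↔ CoeffZero t m z)
    (hk : ∀ z, P.Acc z → P.AccTop k z ∨ P.AccBot k z) :
    2 ^ m ≤ 12 * (∑ i ∈ Finset.range (k + 1), (2 * (t + m)).choose i) * P.size := by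
  classical
  have h1 := one_sided_both t m k hm ht P fun z hz => (hacc z).1 hz
  have h2 : Nat.card {z // CoeffZero t m z} ≤ Nat.card {z // P.AccTop k z ∨ P.AccBot k z} := by
    simp only [Nat.card_eq_fintype_card]
    exact Fintype.card_subtype_mono _ _ fun z hz => hk z ((hacc z).2 hz)
  have h3 : 0 < Nat.card {z // CoeffZero t m z} := by
    have : Nonempty {z // CoeffZero t m z} := by
      refine ⟨⟨0, ?_⟩⟩
      rw [coeffZero_iff]
      intro j
      simp [qn]
    exact Nat.card_pos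
  exact Nat.le_of_mul_le_mul_right ((Nat.mul_le_mul_left _ h2).trans h1) h3

/-- In a weakly read-once program the accepting walks have no redundant tests. -/
theorem readOnce_accTop {E : Type} [AddCommGroup E] [Module (ZMod 2) E] (P : Prog E)
    (h : P.ReadOnce) {z : E} (hz : P.Acc z) : P.AccTop 0 z := by
  have key : ∀ v : P.V, P.Run z P.start v → Relation.ReflTransGen (P.StepTop z ⊥) P.start v := by
    intro v hv
    induction hv with
    | refl => exact Relation.ReflTransGen.refl
    | @tail u w hu huw ih =>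
      obtain ⟨lab, hlab, htrue⟩ := huw
      refine ih.tail ⟨lab, hlab, fun t ht => ⟨htrue t ht, fun h1 => ?_⟩⟩
      subst ht
      exact absurd h1 (h u w t.1 t.2 (P.run_reach hu) hlab)
  exact ⟨⊥, by rw [finrank_bot], key _ hz⟩

/-- The bottom version. -/
theorem readOnce_accBot {E : Type} [AddCommGroup E] [Module (ZMod 2) E] (P : Prog E)
    (h : P.BottomReadOnce) {z : E} (hz : P.Acc z) : P.AccBot 0 z :=
  P.rev_accTop.1 (readOnce_accTop P.rev (P.rev_readOnce h) (P.rev_acc.2 hz))

end Pool.Agent.WRL
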