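import Pool.Agent.WRL.Defs
import Pool.Agent.WRL.Count

set_option autoImplicit false

/-!
# The middle coefficients of a product of two polynomials
-/

namespace Pool.Agent.WRL

open Module

variable {n m : ℕ}

/-- The inputs are two polynomials of degree less than `t + m` over the field with two elements; the
property that the coefficients of `X ^ t, …, X ^ (t + m - 1)` of their product vanish. -/
def CoeffZero (t m : ℕ) (z : Fin (t + m) ⊕ Fin (t + m) → ZMod 2) : Prop :=
  ∀ l : ℕ, t ≤ l → l < t + m →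
    (poly (fun a => z (Sum.inl a)) * poly (fun a => z (Sum.inr a))).coeff l = 0

/-- The quadratic function with the coefficients `c (a + b)`. -/
def qn (c : ℕ → ZMod 2) (z : Fin n ⊕ Fin n → ZMod 2) : ZMod 2 :=
  ∑ a : Fin n, ∑ b : Fin n, c (a + b) * (z (Sum.inl a) * z (Sum.inr b))

/-- Its polar form. -/
noncomputable def Bn (c : ℕ → ZMod 2) : (Fin n ⊕ Fin n → ZMod 2) →ₗ[ZMod 2]
    Dual (ZMod 2) (Fin n ⊕ Fin n → ZMod 2) :=
  LinearMap.mk₂ (ZMod 2) (fun u x => ∑ a : Fin n, ∑ b : Fin n,
      c (a + b) * (u (Sum.inl a) * x (Sum.inr b) + x (Sum.inl a) * u (Sum.inr b)))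
    (by
      intro u u' x
      rw [← Finset.sum_add_distrib]
      refine Finset.sum_congr rfl fun a _ => ?_
      rw [← Finset.sum_add_distrib]
      refine Finset.sum_congr rfl fun b _ => ?_
      simp only [Pi.add_apply]
      ring)
    (by
      intro k u x
      rw [smul_eq_mul, Finset.mul_sum]
      refine Finset.sum_congr rfl fun a _ => ?_
      rw [Finset.mul_sum]
      refine Finset.sum_congr rfl fun b _ => ?_
      simp only [Pi.smul_apply, smul_eq_mul]
      ring)
    (by
      intro u x x'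
      rw [← Finset.sum_add_distrib]
      refine Finset.sum_congr rfl fun a _ => ?_
      rw [← Finset.sum_add_distrib]
      refine Finset.sum_congr rfl fun b _ => ?_
      simp only [Pi.add_apply]
      ring)
    (by
      intro k u x
      rw [smul_eq_mul, Finset.mul_sum]
      refine Finset.sum_congr rfl fun a _ => ?_
      rw [Finset.mul_sum]
      refine Finset.sum_congr rfl fun b _ => ?_
      simp only [Pi.smul_apply, smul_eq_mul]
      ring)

lemma Bn_apply (c : ℕ → ZMod 2) (u x : Fin n ⊕ Fin n → ZMod 2) :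
    Bn c u x = ∑ a : Fin n, ∑ b : Fin n,
      c (a + b) * (u (Sum.inl a) * x (Sum.inr b) + x (Sum.inl a) * u (Sum.inr b)) := rfl

lemma isQ_qn (c : ℕ → ZMod 2) : IsQ (qn (n := n) c) (Bn c) := by
  intro u x
  rw [Bn_apply]
  have h0 : qn (n := n) c 0 = 0 := by simp [qn]
  rw [h0, add_zero, qn, qn, qn, ← Finset.sum_add_distrib, ← Finset.sum_add_distrib]
  refine Finset.sum_congr rfl fun a _ => ?_
  rw [← Finset.sum_add_distrib, ← Finset.sum_add_distrib]
  refine Finset.sum_congr rfl fun b _ => ?_
  simp only [Pi.add_apply]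
  ring

/-- The coefficients of the function with the number `j`. -/
def cn (t : ℕ) (j : Fin m) (l : ℕ) : ZMod 2 := if l = t + j then 1 else 0

/-- The combination. -/
def cs (t : ℕ) (μ : Fin m → ZMod 2) (l : ℕ) : ZMod 2 := ∑ j, μ j * cn t j l

lemma cs_at (t : ℕ) (μ : Fin m → ZMod 2) (j : Fin m) : cs t μ (t + j) = μ j := by
  rw [cs, Finset.sum_eq_single j]
  · simp [cn]
  · intro i _ hi
    have : (t + (j : ℕ)) ≠ t + (i : ℕ) := fun h => hi (Fin.ext (by omega))
    rw [cn, if_neg this, mul_zero]
  · intro h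
    exact absurd (Finset.mem_univ j) h

lemma cs_out {t : ℕ} (μ : Fin m → ZMod 2) {l : ℕ} (hl : t + m ≤ l) : cs t μ l = 0 := by
  rw [cs]
  refine Finset.sum_eq_zero fun j _ => ?_
  have : l ≠ t + (j : ℕ) := by have := j.2; omega
  simp [cn, this]

lemma Bm_eqN (t : ℕ) (μ : Fin m → ZMod 2) : Bm (fun j => Bn (cn t j)) μ = Bn (n := n) (cs t μ) := by
  refine LinearMap.ext fun u => LinearMap.ext fun x => ?_
  rw [Bm, LinearMap.sum_apply, LinearMap.sum_apply]
  simp only [LinearMap.smul_apply, Bn_apply, smul_eq_mul, cs, Finset.mul_sum, Finset.sum_mul]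
  rw [Finset.sum_comm]
  refine Finset.sum_congr rfl fun a _ => ?_
  rw [Finset.sum_comm]
  refine Finset.sum_congr rfl fun b _ => ?_
  refine Finset.sum_congr rfl fun j _ => ?_
  ring

lemma Bn_single_inr (c : ℕ → ZMod 2) (u : Fin n ⊕ Fin n → ZMod 2) (b : Fin n) :
    Bn c u (Pi.single (Sum.inr b) 1) = ∑ a : Fin n, c (a + b) * u (Sum.inl a) := by
  rw [Bn_apply]
  refine Finset.sum_congr rfl fun a _ => ?_
  rw [Finset.sum_eq_single b]
  · simp
  · intro b' _ hb'
    have : (Sum.inr b' : Fin n ⊕ Fin n) ≠ Sum.inr b := fun h => hb' (Sum.inr.inj h)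
    simp [this]
  · intro h
    exact absurd (Finset.mem_univ b) h

lemma Bn_single_inl (c : ℕ → ZMod 2) (u : Fin n ⊕ Fin n → ZMod 2) (b : Fin n) :
    Bn c u (Pi.single (Sum.inl b) 1) = ∑ a : Fin n, c (a + b) * u (Sum.inr a) := by
  rw [Bn_apply, Finset.sum_comm]
  refine Finset.sum_congr rfl fun a _ => ?_
  rw [Finset.sum_eq_single b]
  · simp [add_comm]
  · intro b' _ hb'
    have : (Sum.inl b' : Fin n ⊕ Fin n) ≠ Sum.inl b := fun h => hb' (Sum.inl.inj h)
    simp [this]
  · intro h
    exact absurd (Finset.mem_univ b) h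

/-- A triangular system. -/
lemma triN (c : ℕ → ZMod 2) (l1 : ℕ) (h1 : c l1 ≠ 0) (h2 : ∀ l, l1 < l → c l = 0)
    (h3 : l1 < n) (w : Fin n → ZMod 2)
    (hw : ∀ b : Fin n, ∑ a : Fin n, c (a + b) * w a = 0) :
    ∀ k : ℕ, ∀ a : Fin n, (a : ℕ) = k → k ≤ l1 → w a = 0 := by
  intro k
  induction k using Nat.strong_induction_on with
  | _ k ih =>
    intro a ha hk
    have h4 := hw ⟨l1 - k, by omega⟩
    rw [Finset.sum_eq_single a] at h4
    · have e : ((a : ℕ) + ((⟨l1 - k, by omega⟩ : Fin n) : ℕ)) = l1 := by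
        simp only
        omega
      rw [e] at h4
      exact (mul_eq_zero.1 h4).resolve_left h1
    · intro a' _ ha'
      rcases Nat.lt_or_ge (a' : ℕ) k with h5 | h5
      · rw [ih a' h5 a' rfl (by omega), mul_zero]
      · have h6 : (a' : ℕ) ≠ k := fun h => ha' (Fin.ext (by omega))
        rw [h2 _ (by simp only; omega), zero_mul]
    · intro h
      exact absurd (Finset.mem_univ a) h

/-- The restriction to the last coordinates. -/
def lastN (t m : ℕ) : (Fin (t + m) ⊕ Fin (t + m) → ZMod 2) →ₗ[ZMod 2]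
    (Fin m ⊕ Fin m → ZMod 2) :=
  LinearMap.funLeft (ZMod 2) (ZMod 2)
    (Sum.map (fun i : Fin m => (⟨t + i, by omega⟩ : Fin (t + m)))
      (fun i : Fin m => (⟨t + i, by omega⟩ : Fin (t + m))))

/-- The radicals are small. -/
theorem radicalN (t : ℕ) (μ : Fin m → ZMod 2) (hμ : μ ≠ 0) :
    finrank (ZMod 2) (LinearMap.ker (Bm (fun j => Bn (n := t + m) (cn t j)) μ)) ≤ 2 * m := by
  classical
  rw [Bm_eqN]
  -- the last nonzero coefficient
  obtain ⟨l1, hl1, hmax⟩ : ∃ l1, (t ≤ l1 ∧ l1 < t + m ∧ cs t μ l1 ≠ 0) ∧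
      ∀ l, l1 < l → cs t μ l = 0 := by
    obtain ⟨j0, hj0⟩ : ∃ j, μ j ≠ 0 := by
      by_contra hcon
      push Not at hcon
      exact hμ (funext hcon)
    have hne : ((Finset.Ico t (t + m)).filter fun l => cs t μ l ≠ 0).Nonempty := by
      refine ⟨t + j0, ?_⟩
      rw [Finset.mem_filter, Finset.mem_Ico, cs_at]
      exact ⟨⟨by omega, by have := j0.2; omega⟩, hj0⟩
    refine ⟨Finset.max' _ hne, ?_, ?_⟩
    · have := Finset.max'_mem _ hne
      rw [Finset.mem_filter, Finset.mem_Ico] at this
      exact ⟨this.1.1, this.1.2, this.2⟩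
    · intro l hl
      by_contra hcon
      have h7 := Finset.max'_mem _ hne
      rw [Finset.mem_filter, Finset.mem_Ico] at h7
      have h8 : l < t + m := by
        by_contra h9
        exact hcon (cs_out μ (by omega))
      have h9 : l ∈ (Finset.Ico t (t + m)).filter fun l => cs t μ l ≠ 0 := by
        rw [Finset.mem_filter, Finset.mem_Ico]
        exact ⟨⟨by omega, h8⟩, hcon⟩
      exact absurd (Finset.le_max' _ _ h9) (by omega)
  have h := finrank_le_of_map (lastN t m) (LinearMap.ker (Bn (n := t + m) (cs t μ))) ⊥ ⊤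
    (fun _ _ => trivial) (by
      intro u hu hL
      rw [LinearMap.mem_ker] at hu
      rw [Submodule.mem_bot]
      have t1 := triN (cs t μ) l1 hl1.2.2 hmax hl1.2.1 (fun a => u (Sum.inl a)) (fun b => by
        rw [← Bn_single_inr, hu]; rfl)
      have t2 := triN (cs t μ) l1 hl1.2.2 hmax hl1.2.1 (fun a => u (Sum.inr a)) (fun b => by
        rw [← Bn_single_inl, hu]; rfl)
      ext i
      rcases i with a | a
      · by_cases ha : (a : ℕ) ≤ l1
        · exact t1 a a rfl ha
        · have e : (⟨t + ((a : ℕ) - t), by have := a.2; omega⟩ : Fin (t + m)) = a :=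
            Fin.ext (by simp only; omega)
          have := congrFun hL (Sum.inl ⟨(a : ℕ) - t, by have := a.2; omega⟩)
          simp only [lastN, LinearMap.funLeft_apply, Sum.map_inl, e, Pi.zero_apply] at this
          exact this
      · by_cases ha : (a : ℕ) ≤ l1
        · exact t2 a a rfl ha
        · have e : (⟨t + ((a : ℕ) - t), by have := a.2; omega⟩ : Fin (t + m)) = a :=
            Fin.ext (by simp only; omega)
          have := congrFun hL (Sum.inr ⟨(a : ℕ) - t, by have := a.2; omega⟩)
          simp only [lastN, LinearMap.funLeft_apply, Sum.map_inr, e, Pi.zero_apply] at this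
          exact this)
  rw [finrank_bot, finrank_top, zero_add, Module.finrank_pi, Fintype.card_sum,
    Fintype.card_fin] at h
  omega

/-- The coefficients of the product. -/
lemma coeff_mul_polyN {n : ℕ} (x y : Fin n → ZMod 2) (l : ℕ) :
    (poly x * poly y).coeff l =
      ∑ a : Fin n, ∑ b : Fin n, if (a : ℕ) + b = l then x a * y b else 0 := by
  rw [poly, poly, Finset.sum_mul_sum, Polynomial.finsetSum_coeff]
  refine Finset.sum_congr rfl fun a _ => ?_
  rw [Polynomial.finsetSum_coeff]
  refine Finset.sum_congr rfl fun b _ => ?_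
  rw [Polynomial.monomial_mul_monomial, Polynomial.coeff_monomial]

lemma coeffZero_iff {t : ℕ} (z : Fin (t + m) ⊕ Fin (t + m) → ZMod 2) :
    CoeffZero t m z ↔ ∀ j : Fin m, qn (cn t j) z = 0 := by
  have key : ∀ j : Fin m, (poly (fun a => z (Sum.inl a)) * poly (fun a => z (Sum.inr a))).coeff
      (t + j) = qn (cn t j) z := by
    intro j
    rw [coeff_mul_polyN, qn]
    refine Finset.sum_congr rfl fun a _ => ?_
    refine Finset.sum_congr rfl fun b _ => ?_
    rw [cn, ite_mul, one_mul, zero_mul]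
  constructor
  · intro h j
    rw [← key]
    exact h _ (by omega) (by have := j.2; omega)
  · intro h l h1 h2
    have := h ⟨l - t, by omega⟩
    rw [← key] at this
    have e : t + (l - t) = l := by omega
    simp only [e] at this
    exact this

end Pool.Agent.WRL
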