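import Pool.Agent.WRL.Defs

set_option autoImplicit false

/-!
# The cut of an accepting walk
-/

namespace Pool.Agent.WRL

open Module

variable {E : Type} [AddCommGroup E] [Module (ZMod 2) E]

namespace Prog

variable (P : Prog E)

lemma run_reach {x : E} {u w : P.V} (h : P.Run x u w) : P.Reach u w :=
  Relation.ReflTransGen.mono (fun _ _ (h1 : P.Step x _ _) => by
    obtain ⟨lab, h2, _⟩ := h1
    exact ⟨lab, h2⟩) _ _ h

lemma pre_mono {u w : P.V} (lab) (he : P.edge u w lab) : P.Pre u ≤ P.Pre w := by
  apply Submodule.span_mono
  rintro l ⟨a, b, c, h1, h2, h3⟩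
  exact ⟨a, b, c, h1, h2, h3.tail ⟨lab, he⟩⟩

lemma mem_pre {u w : P.V} {l b} (hu : P.Reach P.start u) (he : P.edge u w (some (l, b))) :
    l ∈ P.Pre w :=
  Submodule.subset_span ⟨u, w, b, hu, he, Relation.ReflTransGen.refl⟩

lemma pre_start (h : P.ReadOnce) : P.Pre P.start = ⊥ := by
  rw [Prog.Pre, Submodule.span_eq_bot]
  rintro l ⟨u, w, b, h1, h2, h3⟩
  have h4 : l ∈ P.Pre u := Submodule.subset_span ⟨u, w, b, h1, h2, h3.trans h1⟩
  exact absurd h4 (h u w l b h1 h2)

variable [FiniteDimensional (ZMod 2) E]

/-- The cut: a node `v` of an accepting walk for `x` and the span `G` of the forms tested on the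
rest of the walk. -/
theorem cut (h : P.ReadOnce) {x : E} (hx : P.Acc x) {r : ℕ} (hr : r ≤ finrank (ZMod 2) E) :
    ∃ (v : P.V) (G : Submodule (ZMod 2) (Dual (ZMod 2) E)), P.Run x P.start v ∧
      finrank (ZMod 2) (P.Pre v) ≤ r ∧ Disjoint (P.Pre v) G ∧
      finrank (ZMod 2) G + r ≤ finrank (ZMod 2) E ∧
      ∀ y : E, (∀ g ∈ G, g y = g x) → P.Run y v P.acc := by
  have hdim : finrank (ZMod 2) (Dual (ZMod 2) E) = finrank (ZMod 2) E :=
    Subspace.dual_finrank_eq
  have key : ∀ a : P.V, P.Run x a P.acc → P.Run x P.start a →
      (∃ (v : P.V) (G : Submodule (ZMod 2) (Dual (ZMod 2) E)), P.Run x P.start v ∧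
        finrank (ZMod 2) (P.Pre v) ≤ r ∧ Disjoint (P.Pre v) G ∧
        finrank (ZMod 2) G + r ≤ finrank (ZMod 2) E ∧
        ∀ y : E, (∀ g ∈ G, g y = g x) → P.Run y v P.acc) ∨
      (r < finrank (ZMod 2) (P.Pre a) ∧ ∃ G : Submodule (ZMod 2) (Dual (ZMod 2) E),
        Disjoint (P.Pre a) G ∧ ∀ y : E, (∀ g ∈ G, g y = g x) → P.Run y a P.acc) := by
    intro a ha
    induction ha using Relation.ReflTransGen.head_induction_on with
    | refl =>
      intro hs
      by_cases hc : finrank (ZMod 2) (P.Pre P.acc) ≤ r
      · left
        refine ⟨P.acc, ⊥, hs, hc, disjoint_bot_right, ?_, fun y _ => Relation.ReflTransGen.refl⟩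
        rw [finrank_bot, zero_add]
        exact hr
      · right
        exact ⟨by omega, ⊥, disjoint_bot_right, fun y _ => Relation.ReflTransGen.refl⟩
    | @head a c hac _ ih =>
      intro hs
      obtain ⟨lab, hlab, htrue⟩ := hac
      rcases ih (hs.tail ⟨lab, hlab, htrue⟩) with hA | ⟨hlt, G, hdis, hG⟩
      · exact Or.inl hA
      · have hra : P.Reach P.start a := P.run_reach hs
        -- the new span
        obtain ⟨G', hdis', hfin', hG'⟩ : ∃ G' : Submodule (ZMod 2) (Dual (ZMod 2) E),
            Disjoint (P.Pre a) G' ∧ finrank (ZMod 2) G' ≤ finrank (ZMod 2) G + 1 ∧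
            ∀ y : E, (∀ g ∈ G', g y = g x) → P.Run y a P.acc := by
          cases lab with
          | none =>
            refine ⟨G, hdis.mono_left (P.pre_mono _ hlab), Nat.le_succ _, fun y hy => ?_⟩
            exact Relation.ReflTransGen.head ⟨none, hlab, fun t ht => by cases ht⟩ (hG y hy)
          | some t =>
            obtain ⟨l, b⟩ := t
            have hl : l ∉ P.Pre a := h a c l b hra hlab
            have hlc : l ∈ P.Pre c := P.mem_pre hra hlab
            refine ⟨G ⊔ Submodule.span (ZMod 2) {l}, ?_, ?_, fun y hy => ?_⟩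
            · rw [Submodule.disjoint_def]
              intro p hp hp2
              obtain ⟨g, hg, s, hs2, rfl⟩ := Submodule.mem_sup.1 hp2
              obtain ⟨k, rfl⟩ := Submodule.mem_span_singleton.1 hs2
              have hpc : g + k • l ∈ P.Pre c := P.pre_mono _ hlab hp
              have hgc : g ∈ P.Pre c := by
                have := Submodule.sub_mem _ hpc (Submodule.smul_mem _ k hlc)
                rwa [add_sub_cancel_right] at this
              have hg0 : g = 0 := (Submodule.disjoint_def.1 hdis) g hgc hg
              rw [hg0, zero_add] at hp ⊢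
              by_cases hk : k = 0
              · rw [hk, zero_smul]
              · exfalso
                apply hl
                have := Submodule.smul_mem _ k⁻¹ hp
                rwa [smul_smul, inv_mul_cancel₀ hk, one_smul] at this
            · refine (Submodule.finrank_add_le_finrank_add_finrank _ _).trans ?_
              have := finrank_span_le_card (R := ZMod 2)
                ({l} : Set (Dual (ZMod 2) E))
              rw [Set.toFinset_singleton, Finset.card_singleton] at this
              omega
            · refine Relation.ReflTransGen.head ⟨some (l, b), hlab, fun t ht => ?_⟩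
                (hG y fun g hg => hy g (Submodule.mem_sup_left hg))
              have h1 := hy l (Submodule.mem_sup_right (Submodule.mem_span_singleton_self l))
              have h2 := htrue (l, b) rfl
              obtain rfl : (l, b) = t := Option.some.inj ht
              exact h1.trans h2
        by_cases hc : finrank (ZMod 2) (P.Pre a) ≤ r
        · left
          refine ⟨a, G', hs, hc, hdis', ?_, hG'⟩
          have h1 := Submodule.finrank_add_finrank_le_of_disjoint hdis
          rw [hdim] at h1
          omega
        · right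
          exact ⟨by omega, G', hdis', hG'⟩
  rcases key P.start hx Relation.ReflTransGen.refl with hA | ⟨hlt, -⟩
  · exact hA
  · exfalso
    rw [P.pre_start h, finrank_bot] at hlt
    omega

end Prog

end Pool.Agent.WRL
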