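import Pool.Agent.WRL.Cut

set_option autoImplicit false

/-!
# Redundant tests, and the cut of an accepting walk with few redundant tests
-/

namespace Pool.Agent.WRL

open Module

variable {E : Type} [AddCommGroup E] [Module (ZMod 2) E]

namespace Prog

variable (P : Prog E)

/-- There is an edge from `u` to `w` which is free, or whose test is true on the input `x` and which
is not redundant or has its form in `R`. Here the test of a form `l` on an edge which starts at `u`
is redundant if `l` is in the span of the forms tested on the walks from the start node to `u`. -/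
def StepTop (x : E) (R : Submodule (ZMod 2) (Module.Dual (ZMod 2) E)) (u w : P.V) : Prop :=
  ∃ lab, P.edge u w lab ∧ ∀ t : Module.Dual (ZMod 2) E × ZMod 2, lab = some t →
    t.1 x = t.2 ∧ (t.1 ∈ P.Pre u → t.1 ∈ R)

/-- The input `x` has an accepting walk all of whose tests are true and whose redundant tests lie in
a space of dimension at most `k`. -/
def AccTop (k : ℕ) (x : E) : Prop :=
  ∃ R : Submodule (ZMod 2) (Module.Dual (ZMod 2) E), finrank (ZMod 2) R ≤ k ∧
    Relation.ReflTransGen (P.StepTop x R) P.start P.acc

/-- The bottom version of `StepTop`: the test of a form `l` on an edge which ends at `w` is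
redundant if `l` is in the span of the forms tested on the walks from `w` to the accepting node. -/
def StepBot (x : E) (R : Submodule (ZMod 2) (Module.Dual (ZMod 2) E)) (u w : P.V) : Prop :=
  ∃ lab, P.edge u w lab ∧ ∀ t : Module.Dual (ZMod 2) E × ZMod 2, lab = some t →
    t.1 x = t.2 ∧ (t.1 ∈ P.Post w → t.1 ∈ R)

/-- The bottom version of `AccTop`. -/
def AccBot (k : ℕ) (x : E) : Prop :=
  ∃ R : Submodule (ZMod 2) (Module.Dual (ZMod 2) E), finrank (ZMod 2) R ≤ k ∧
    Relation.ReflTransGen (P.StepBot x R) P.start P.acc

lemma stepTop_step {x : E} {R : Submodule (ZMod 2) (Module.Dual (ZMod 2) E)} {u w : P.V}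
    (h : P.StepTop x R u w) : P.Step x u w := by
  obtain ⟨lab, h1, h2⟩ := h
  exact ⟨lab, h1, fun t ht => (h2 t ht).1⟩

lemma accTop_acc {k : ℕ} {x : E} (h : P.AccTop k x) : P.Acc x := by
  obtain ⟨R, _, h2⟩ := h
  exact Relation.ReflTransGen.mono (fun _ _ h3 => P.stepTop_step h3) _ _ h2

open Classical in
/-- The span of the forms tested before the node `v`; nothing is tested before the start node. -/
noncomputable def Pre0 (v : P.V) : Submodule (ZMod 2) (Module.Dual (ZMod 2) E) :=
  if v = P.start then ⊥ else P.Pre v

lemma pre0_start : P.Pre0 P.start = ⊥ := by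
  rw [Pre0, if_pos rfl]

lemma pre0_le (v : P.V) : P.Pre0 v ≤ P.Pre v := by
  rw [Pre0]
  split_ifs
  · exact bot_le
  · exact le_refl _

variable [FiniteDimensional (ZMod 2) E]

/-- The cut: a node `v` of the accepting walk for `x` and the span `G` of the forms of the tests on
the rest of the walk which are not redundant. -/
theorem cutN {x : E} {R : Submodule (ZMod 2) (Dual (ZMod 2) E)}
    (hx : Relation.ReflTransGen (P.StepTop x R) P.start P.acc) {r : ℕ}
    (hr : r ≤ finrank (ZMod 2) E) :
    ∃ (v : P.V) (G : Submodule (ZMod 2) (Dual (ZMod 2) E)), P.Run x P.start v ∧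
      finrank (ZMod 2) (P.Pre0 v) ≤ r ∧ Disjoint (P.Pre0 v) G ∧
      finrank (ZMod 2) G + r ≤ finrank (ZMod 2) E ∧
      ∀ y : E, (∀ g ∈ G, g y = g x) → (∀ g ∈ R, g y = g x) → P.Run y v P.acc := by
  have hdim : finrank (ZMod 2) (Dual (ZMod 2) E) = finrank (ZMod 2) E :=
    Subspace.dual_finrank_eq
  have key : ∀ a : P.V, Relation.ReflTransGen (P.StepTop x R) a P.acc → P.Run x P.start a →
      (∃ (v : P.V) (G : Submodule (ZMod 2) (Dual (ZMod 2) E)), P.Run x P.start v ∧
        finrank (ZMod 2) (P.Pre0 v) ≤ r ∧ Disjoint (P.Pre0 v) G ∧
        finrank (ZMod 2) G + r ≤ finrank (ZMod 2) E ∧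
        ∀ y : E, (∀ g ∈ G, g y = g x) → (∀ g ∈ R, g y = g x) → P.Run y v P.acc) ∨
      (r < finrank (ZMod 2) (P.Pre0 a) ∧ ∃ G : Submodule (ZMod 2) (Dual (ZMod 2) E),
        Disjoint (P.Pre0 a) G ∧
        ∀ y : E, (∀ g ∈ G, g y = g x) → (∀ g ∈ R, g y = g x) → P.Run y a P.acc) := by
    intro a ha
    induction ha using Relation.ReflTransGen.head_induction_on with
    | refl =>
      intro hs
      by_cases hc : finrank (ZMod 2) (P.Pre0 P.acc) ≤ r
      · left
        refine ⟨P.acc, ⊥, hs, hc, disjoint_bot_right, ?_, fun y _ _ => Relation.ReflTransGen.refl⟩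
        rw [finrank_bot, zero_add]
        exact hr
      · right
        exact ⟨by omega, ⊥, disjoint_bot_right, fun y _ _ => Relation.ReflTransGen.refl⟩
    | @head a c hac _ ih =>
      intro hs
      have hstep := P.stepTop_step hac
      obtain ⟨lab, hlab, htrue⟩ := hac
      rcases ih (hs.tail hstep) with hA | ⟨hlt, G, hdis, hG⟩
      · exact Or.inl hA
      · have hra : P.Reach P.start a := P.run_reach hs
        have hc0 : c ≠ P.start := by
          intro h0
          rw [h0, P.pre0_start, finrank_bot] at hlt
          omega
        have hc1 : P.Pre0 c = P.Pre c := by rw [Pre0, if_neg hc0]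
        rw [hc1] at hlt hdis
        have hle : P.Pre0 a ≤ P.Pre c := (P.pre0_le a).trans (P.pre_mono _ hlab)
        -- the new span
        obtain ⟨G', hdis', hfin', hG'⟩ : ∃ G' : Submodule (ZMod 2) (Dual (ZMod 2) E),
            Disjoint (P.Pre0 a) G' ∧ finrank (ZMod 2) G' ≤ finrank (ZMod 2) G + 1 ∧
            ∀ y : E, (∀ g ∈ G', g y = g x) → (∀ g ∈ R, g y = g x) → P.Run y a P.acc := by
          cases lab with
          | none =>
            refine ⟨G, hdis.mono_left hle, Nat.le_succ _, fun y hy hy2 => ?_⟩
            exact Relation.ReflTransGen.head ⟨none, hlab, fun t ht => by cases ht⟩ (hG y hy hy2)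
          | some t =>
            obtain ⟨l, b⟩ := t
            have hlx := (htrue (l, b) rfl).1
            by_cases hred : l ∈ P.Pre a
            · refine ⟨G, hdis.mono_left hle, Nat.le_succ _, fun y hy hy2 => ?_⟩
              refine Relation.ReflTransGen.head ⟨some (l, b), hlab, fun t ht => ?_⟩ (hG y hy hy2)
              have h1 := hy2 l ((htrue (l, b) rfl).2 hred)
              obtain rfl : (l, b) = t := Option.some.inj ht
              exact h1.trans hlx
            have hl : l ∉ P.Pre0 a := fun h0 => hred (P.pre0_le a h0)
            have hlc : l ∈ P.Pre c := P.mem_pre hra hlab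
            refine ⟨G ⊔ Submodule.span (ZMod 2) {l}, ?_, ?_, fun y hy hy2 => ?_⟩
            · rw [Submodule.disjoint_def]
              intro p hp hp2
              obtain ⟨g, hg, s, hs2, rfl⟩ := Submodule.mem_sup.1 hp2
              obtain ⟨k, rfl⟩ := Submodule.mem_span_singleton.1 hs2
              have hpc : g + k • l ∈ P.Pre c := hle hp
              have hgc : g ∈ P.Pre c := by
                have := Submodule.sub_mem _ hpc (Submodule.smul_mem _ k hlc)
                rwa [add_sub_cancel_right] at this
              have hg0 : g = 0 := (Submodule.disjoint_def.1 hdis) g hgc hg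
              rw [hg0, zero_add] at hp ⊢
              by_cases hk : k = 0
              · rw [hk, zero_smul]
              · exfalso
                apply hl
                have := Submodule.smul_mem _ k⁻¹ hp
                rwa [smul_smul, inv_mul_cancel₀ hk, one_smul] at this
            · refine (Submodule.finrank_add_le_finrank_add_finrank _ _).trans ?_
              have := finrank_span_le_card (R := ZMod 2)
                ({l} : Set (Dual (ZMod 2) E))
              rw [Set.toFinset_singleton, Finset.card_singleton] at this
              omega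
            · refine Relation.ReflTransGen.head ⟨some (l, b), hlab, fun t ht => ?_⟩
                (hG y (fun g hg => hy g (Submodule.mem_sup_left hg)) hy2)
              have h1 := hy l (Submodule.mem_sup_right (Submodule.mem_span_singleton_self l))
              obtain rfl : (l, b) = t := Option.some.inj ht
              exact h1.trans hlx
        by_cases hc : finrank (ZMod 2) (P.Pre0 a) ≤ r
        · left
          refine ⟨a, G', hs, hc, hdis', ?_, hG'⟩
          have h1 := Submodule.finrank_add_finrank_le_of_disjoint hdis
          rw [hdim] at h1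
          omega
        · right
          exact ⟨by omega, G', hdis', hG'⟩
  rcases key P.start hx Relation.ReflTransGen.refl with hA | ⟨hlt, -⟩
  · exact hA
  · exfalso
    rw [P.pre0_start, finrank_bot] at hlt
    omega

end Prog

end Pool.Agent.WRL
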