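import Mathlib

set_option autoImplicit false

/-!
# Nondeterministic linear branching programs

Branching programs over `ZMod 2` whose tests are linear forms, with nondeterministic branching, and
the read-once conditions of Gryaznov, Pudlak and Talebanfard.
-/

namespace Pool.Agent.WRL

/-- A nondeterministic linear branching program whose inputs are the vectors of the space `E` over
the field with two elements: a finite set `V` of nodes with a start node and an accepting node, and
edges between nodes. An edge has no label (it is free) or it carries a test, that is a linear form
`l` and a value `b`; the test is true on the input `x` if `l x = b`. -/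
structure Prog (E : Type) [AddCommGroup E] [Module (ZMod 2) E] where
  V : Type
  fin : Fintype V
  start : V
  acc : V
  edge : V → V → Option (Module.Dual (ZMod 2) E × ZMod 2) → Prop

variable {E : Type} [AddCommGroup E] [Module (ZMod 2) E]

namespace Prog

variable (P : Prog E)

/-- The number of nodes. -/
def size : ℕ := @Fintype.card P.V P.fin

/-- There is an edge from `u` to `w` which is free or whose test is true on the input `x`. -/
def Step (x : E) (u w : P.V) : Prop :=
  ∃ lab, P.edge u w lab ∧ ∀ t : Module.Dual (ZMod 2) E × ZMod 2, lab = some t → t.1 x = t.2

/-- There is a walk from `u` to `w` all of whose tests are true on the input `x`. -/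
def Run (x : E) : P.V → P.V → Prop := Relation.ReflTransGen (P.Step x)

/-- The input `x` is accepted: there is a walk from the start node to the accepting node all of
whose tests are true on `x`. -/
def Acc (x : E) : Prop := P.Run x P.start P.acc

/-- There is a walk from `u` to `w`. -/
def Reach : P.V → P.V → Prop := Relation.ReflTransGen fun u w => ∃ lab, P.edge u w lab

/-- The span of the linear forms which are tested on the walks from the start node to `v`. -/
def Pre (v : P.V) : Submodule (ZMod 2) (Module.Dual (ZMod 2) E) :=
  Submodule.span (ZMod 2) {l | ∃ u w b, P.Reach P.start u ∧ P.edge u w (some (l, b)) ∧ P.Reach w v}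

/-- The span of the linear forms which are tested on the walks from `v` to the accepting node. -/
def Post (v : P.V) : Submodule (ZMod 2) (Module.Dual (ZMod 2) E) :=
  Submodule.span (ZMod 2) {l | ∃ u w b, P.Reach v u ∧ P.edge u w (some (l, b)) ∧ P.Reach w P.acc}

/-- Weakly read-once: a form which is tested on an edge that starts at `u` is not in the span of the
forms tested on the walks from the start node to `u`. -/
def ReadOnce : Prop :=
  ∀ u w l b, P.Reach P.start u → P.edge u w (some (l, b)) → l ∉ P.Pre u

/-- Weakly read-once, bottom version: a form which is tested on an edge that ends at `w` is not in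
the span of the forms tested on the walks from `w` to the accepting node. -/
def BottomReadOnce : Prop :=
  ∀ u w l b, P.edge u w (some (l, b)) → P.Reach w P.acc → l ∉ P.Post w

end Prog

/-- An ordinary nondeterministic branching program: every test is the test of a variable. -/
def Prog.Ordinary {ι : Type} (P : Prog (ι → ZMod 2)) : Prop :=
  ∀ u w l b, P.edge u w (some (l, b)) → ∃ i : ι, l = LinearMap.proj i

/-- The polynomial of degree less than `n` with the coefficients `x`. -/
noncomputable def poly {n : ℕ} (x : Fin n → ZMod 2) : Polynomial (ZMod 2) :=
  ∑ a : Fin n, Polynomial.monomial (a : ℕ) (x a)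

/-- The inputs are two polynomials of degree less than `8 m` over the field with two elements; the
property that the coefficients of `t ^ (7 m), …, t ^ (8 m - 1)` of their product vanish. -/
def MidZero (m : ℕ) (z : Fin (8 * m) ⊕ Fin (8 * m) → ZMod 2) : Prop :=
  ∀ l : ℕ, 7 * m ≤ l → l < 8 * m →
    (poly (fun a => z (Sum.inl a)) * poly (fun a => z (Sum.inr a))).coeff l = 0

end Pool.Agent.WRL
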