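import Pool.Agent.WRL.Defs
import Pool.Agent.WRL.Count

set_option autoImplicit false

/-!
# The middle coefficients of a product of two polynomials
-/

namespace Pool.Agent.WRL

open Module

variable {m : ℕ}

/-- The quadratic function with the coefficients `c (a + b)`. -/
def qc (c : ℕ → ZMod 2) (z : Fin (8 * m) ⊕ Fin (8 * m) → ZMod 2) : ZMod 2 :=
  ∑ a : Fin (8 * m), ∑ b : Fin (8 * m), c (a + b) * (z (Sum.inl a) * z (Sum.inr b))

/-- Its polar form. -/
noncomputable def Bc (c : ℕ → ZMod 2) : (Fin (8 * m) ⊕ Fin (8 * m) → ZMod 2) →ₗ[ZMod 2]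
    Dual (ZMod 2) (Fin (8 * m) ⊕ Fin (8 * m) → ZMod 2) :=
  LinearMap.mk₂ (ZMod 2) (fun u x => ∑ a : Fin (8 * m), ∑ b : Fin (8 * m),
      c (a + b) * (u (Sum.inl a) * x (Sum.inr b) + x (Sum.inl a) * u (Sum.inr b)))
    (by
      intro u u' x
      rw [← Finset.sum_add_distrib]
      refine Finset.sum_congr rfl fun a _ => ?_
      rw [← Finset.sum_add_distrib]
      refine Finset.sum_congr rfl fun b _ => ?_
      simp only [Pi.add_apply]
      ring)
    (by
      intro k u x
      rw [smul_eq_mul, Finset.mul_sum]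
      refine Finset.sum_congr rfl fun a _ => ?_
      rw [Finset.mul_sum]
      refine Finset.sum_congr rfl fun b _ => ?_
      simp only [Pi.smul_apply, smul_eq_mul]
      ring)
    (by
      intro u x x'
      rw [← Finset.sum_add_distrib]
      refine Finset.sum_congr rfl fun a _ => ?_
      rw [← Finset.sum_add_distrib]
      refine Finset.sum_congr rfl fun b _ => ?_
      simp only [Pi.add_apply]
      ring)
    (by
      intro k u x
      rw [smul_eq_mul, Finset.mul_sum]
      refine Finset.sum_congr rfl fun a _ => ?_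
      rw [Finset.mul_sum]
      refine Finset.sum_congr rfl fun b _ => ?_
      simp only [Pi.smul_apply, smul_eq_mul]
      ring)

lemma Bc_apply (c : ℕ → ZMod 2) (u x : Fin (8 * m) ⊕ Fin (8 * m) → ZMod 2) :
    Bc c u x = ∑ a : Fin (8 * m), ∑ b : Fin (8 * m),
      c (a + b) * (u (Sum.inl a) * x (Sum.inr b) + x (Sum.inl a) * u (Sum.inr b)) := rfl

lemma isQ_qc (c : ℕ → ZMod 2) : IsQ (qc (m := m) c) (Bc c) := by
  intro u x
  rw [Bc_apply]
  have h0 : qc (m := m) c 0 = 0 := by simp [qc]
  rw [h0, add_zero, qc, qc, qc, ← Finset.sum_add_distrib, ← Finset.sum_add_distrib]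
  refine Finset.sum_congr rfl fun a _ => ?_
  rw [← Finset.sum_add_distrib, ← Finset.sum_add_distrib]
  refine Finset.sum_congr rfl fun b _ => ?_
  simp only [Pi.add_apply]
  ring

/-- The coefficients of the function with the number `j`. -/
def cj (m : ℕ) (j : Fin m) (l : ℕ) : ZMod 2 := if l = 7 * m + j then 1 else 0

/-- The combination. -/
def cm (μ : Fin m → ZMod 2) (l : ℕ) : ZMod 2 := ∑ j, μ j * cj m j l

lemma cm_at (μ : Fin m → ZMod 2) (j : Fin m) : cm μ (7 * m + j) = μ j := by
  rw [cm, Finset.sum_eq_single j]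
  · simp [cj]
  · intro i _ hi
    have : (7 * m + (j : ℕ)) ≠ 7 * m + (i : ℕ) := fun h => hi (Fin.ext (by omega))
    rw [cj, if_neg this, mul_zero]
  · intro h
    exact absurd (Finset.mem_univ j) h

lemma cm_out (μ : Fin m → ZMod 2) {l : ℕ} (hl : 8 * m ≤ l) : cm μ l = 0 := by
  rw [cm]
  refine Finset.sum_eq_zero fun j _ => ?_
  have : l ≠ 7 * m + (j : ℕ) := by have := j.2; omega
  simp [cj, this]

lemma Bm_eq (μ : Fin m → ZMod 2) : Bm (fun j => Bc (cj m j)) μ = Bc (m := m) (cm μ) := by
  refine LinearMap.ext fun u => LinearMap.ext fun x => ?_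
  rw [Bm, LinearMap.sum_apply, LinearMap.sum_apply]
  simp only [LinearMap.smul_apply, Bc_apply, smul_eq_mul, cm, Finset.mul_sum, Finset.sum_mul]
  rw [Finset.sum_comm]
  refine Finset.sum_congr rfl fun a _ => ?_
  rw [Finset.sum_comm]
  refine Finset.sum_congr rfl fun b _ => ?_
  refine Finset.sum_congr rfl fun j _ => ?_
  ring

lemma Bc_single_inr (c : ℕ → ZMod 2) (u : Fin (8 * m) ⊕ Fin (8 * m) → ZMod 2) (b : Fin (8 * m)) :
    Bc c u (Pi.single (Sum.inr b) 1) = ∑ a : Fin (8 * m), c (a + b) * u (Sum.inl a) := by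
  rw [Bc_apply]
  refine Finset.sum_congr rfl fun a _ => ?_
  rw [Finset.sum_eq_single b]
  · simp
  · intro b' _ hb'
    have : (Sum.inr b' : Fin (8 * m) ⊕ Fin (8 * m)) ≠ Sum.inr b := fun h => hb' (Sum.inr.inj h)
    simp [this]
  · intro h
    exact absurd (Finset.mem_univ b) h

lemma Bc_single_inl (c : ℕ → ZMod 2) (u : Fin (8 * m) ⊕ Fin (8 * m) → ZMod 2) (b : Fin (8 * m)) :
    Bc c u (Pi.single (Sum.inl b) 1) = ∑ a : Fin (8 * m), c (a + b) * u (Sum.inr a) := by
  rw [Bc_apply, Finset.sum_comm]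
  refine Finset.sum_congr rfl fun a _ => ?_
  rw [Finset.sum_eq_single b]
  · simp [add_comm]
  · intro b' _ hb'
    have : (Sum.inl b' : Fin (8 * m) ⊕ Fin (8 * m)) ≠ Sum.inl b := fun h => hb' (Sum.inl.inj h)
    simp [this]
  · intro h
    exact absurd (Finset.mem_univ b) h

/-- A triangular system. -/
lemma tri (c : ℕ → ZMod 2) (l1 : ℕ) (h1 : c l1 ≠ 0) (h2 : ∀ l, l1 < l → c l = 0)
    (h3 : l1 < 8 * m) (w : Fin (8 * m) → ZMod 2)
    (hw : ∀ b : Fin (8 * m), ∑ a : Fin (8 * m), c (a + b) * w a = 0) :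
    ∀ k : ℕ, ∀ a : Fin (8 * m), (a : ℕ) = k → k ≤ l1 → w a = 0 := by
  intro k
  induction k using Nat.strong_induction_on with
  | _ k ih =>
    intro a ha hk
    have h4 := hw ⟨l1 - k, by omega⟩
    rw [Finset.sum_eq_single a] at h4
    · have e : ((a : ℕ) + ((⟨l1 - k, by omega⟩ : Fin (8 * m)) : ℕ)) = l1 := by
        simp only
        omega
      rw [e] at h4
      exact (mul_eq_zero.1 h4).resolve_left h1
    · intro a' _ ha'
      rcases Nat.lt_or_ge (a' : ℕ) k with h5 | h5
      · rw [ih a' h5 a' rfl (by omega), mul_zero]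
      · have h6 : (a' : ℕ) ≠ k := fun h => ha' (Fin.ext (by omega))
        rw [h2 _ (by simp only; omega), zero_mul]
    · intro h
      exact absurd (Finset.mem_univ a) h

/-- The restriction to the last coordinates. -/
def lastCoords (m : ℕ) : (Fin (8 * m) ⊕ Fin (8 * m) → ZMod 2) →ₗ[ZMod 2]
    (Fin m ⊕ Fin m → ZMod 2) :=
  LinearMap.funLeft (ZMod 2) (ZMod 2)
    (Sum.map (fun i : Fin m => (⟨7 * m + i, by omega⟩ : Fin (8 * m)))
      (fun i : Fin m => (⟨7 * m + i, by omega⟩ : Fin (8 * m))))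

/-- The radicals are small. -/
theorem radical (μ : Fin m → ZMod 2) (hμ : μ ≠ 0) :
    finrank (ZMod 2) (LinearMap.ker (Bm (fun j => Bc (m := m) (cj m j)) μ)) ≤ 2 * m := by
  classical
  rw [Bm_eq]
  -- the last nonzero coefficient
  obtain ⟨l1, hl1, hmax⟩ : ∃ l1, (7 * m ≤ l1 ∧ l1 < 8 * m ∧ cm μ l1 ≠ 0) ∧
      ∀ l, l1 < l → cm μ l = 0 := by
    obtain ⟨j0, hj0⟩ : ∃ j, μ j ≠ 0 := by
      by_contra hcon
      push Not at hcon
      exact hμ (funext hcon)
    have hne : ((Finset.Ico (7 * m) (8 * m)).filter fun l => cm μ l ≠ 0).Nonempty := by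
      refine ⟨7 * m + j0, ?_⟩
      rw [Finset.mem_filter, Finset.mem_Ico, cm_at]
      exact ⟨⟨by omega, by have := j0.2; omega⟩, hj0⟩
    refine ⟨Finset.max' _ hne, ?_, ?_⟩
    · have := Finset.max'_mem _ hne
      rw [Finset.mem_filter, Finset.mem_Ico] at this
      exact ⟨this.1.1, this.1.2, this.2⟩
    · intro l hl
      by_contra hcon
      have h7 := Finset.max'_mem _ hne
      rw [Finset.mem_filter, Finset.mem_Ico] at h7
      have h8 : l < 8 * m := by
        by_contra h9
        exact hcon (cm_out μ (by omega))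
      have h9 : l ∈ (Finset.Ico (7 * m) (8 * m)).filter fun l => cm μ l ≠ 0 := by
        rw [Finset.mem_filter, Finset.mem_Ico]
        exact ⟨⟨by omega, h8⟩, hcon⟩
      exact absurd (Finset.le_max' _ _ h9) (by omega)
  have h := finrank_le_of_map (lastCoords m) (LinearMap.ker (Bc (m := m) (cm μ))) ⊥ ⊤
    (fun _ _ => trivial) (by
      intro u hu hL
      rw [LinearMap.mem_ker] at hu
      rw [Submodule.mem_bot]
      have t1 := tri (cm μ) l1 hl1.2.2 hmax hl1.2.1 (fun a => u (Sum.inl a)) (fun b => by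
        rw [← Bc_single_inr, hu]; rfl)
      have t2 := tri (cm μ) l1 hl1.2.2 hmax hl1.2.1 (fun a => u (Sum.inr a)) (fun b => by
        rw [← Bc_single_inl, hu]; rfl)
      ext i
      rcases i with a | a
      · by_cases ha : (a : ℕ) ≤ l1
        · exact t1 a a rfl ha
        · have e : (⟨7 * m + ((a : ℕ) - 7 * m), by have := a.2; omega⟩ : Fin (8 * m)) = a :=
            Fin.ext (by simp only; omega)
          have := congrFun hL (Sum.inl ⟨(a : ℕ) - 7 * m, by have := a.2; omega⟩)
          simp only [lastCoords, LinearMap.funLeft_apply, Sum.map_inl, e, Pi.zero_apply] at this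
          exact this
      · by_cases ha : (a : ℕ) ≤ l1
        · exact t2 a a rfl ha
        · have e : (⟨7 * m + ((a : ℕ) - 7 * m), by have := a.2; omega⟩ : Fin (8 * m)) = a :=
            Fin.ext (by simp only; omega)
          have := congrFun hL (Sum.inr ⟨(a : ℕ) - 7 * m, by have := a.2; omega⟩)
          simp only [lastCoords, LinearMap.funLeft_apply, Sum.map_inr, e, Pi.zero_apply] at this
          exact this)
  rw [finrank_bot, finrank_top, zero_add, Module.finrank_pi, Fintype.card_sum,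
    Fintype.card_fin] at h
  omega

/-- The coefficients of the product. -/
lemma coeff_mul_poly {n : ℕ} (x y : Fin n → ZMod 2) (l : ℕ) :
    (poly x * poly y).coeff l =
      ∑ a : Fin n, ∑ b : Fin n, if (a : ℕ) + b = l then x a * y b else 0 := by
  rw [poly, poly, Finset.sum_mul_sum, Polynomial.finsetSum_coeff]
  refine Finset.sum_congr rfl fun a _ => ?_
  rw [Polynomial.finsetSum_coeff]
  refine Finset.sum_congr rfl fun b _ => ?_
  rw [Polynomial.monomial_mul_monomial, Polynomial.coeff_monomial]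

lemma midZero_iff (z : Fin (8 * m) ⊕ Fin (8 * m) → ZMod 2) :
    MidZero m z ↔ ∀ j : Fin m, qc (cj m j) z = 0 := by
  have key : ∀ j : Fin m, (poly (fun a => z (Sum.inl a)) * poly (fun a => z (Sum.inr a))).coeff
      (7 * m + j) = qc (cj m j) z := by
    intro j
    rw [coeff_mul_poly, qc]
    refine Finset.sum_congr rfl fun a _ => ?_
    refine Finset.sum_congr rfl fun b _ => ?_
    rw [cj, ite_mul, one_mul, zero_mul]
  constructor
  · intro h j
    rw [← key]
    exact h _ (by omega) (by have := j.2; omega)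
  · intro h l h1 h2
    have := h ⟨l - 7 * m, by omega⟩
    rw [← key] at this
    have e : 7 * m + (l - 7 * m) = l := by omega
    simp only [e] at this
    exact this

end Pool.Agent.WRL
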