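import Pool.Agent.WRL.Fam
import Pool.Agent.WRL.Lower

set_option autoImplicit false

/-!
# The lower bound for the middle coefficients of a product
-/

namespace Pool.Agent.WRL

open Module

/-- A nondeterministic weakly read-once linear branching program which accepts only inputs with the
property `MidZero` accepts a small part of them. -/
theorem one_sided (m : ℕ) (hm : 0 < m) (P : Prog (Fin (8 * m) ⊕ Fin (8 * m) → ZMod 2))
    (h : P.ReadOnce ∨ P.BottomReadOnce) (hacc : ∀ z, P.Acc z → MidZero m z) :
    2 ^ m * Nat.card {z // P.Acc z} ≤ 6 * P.size * Nat.card {z // MidZero m z} := by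
  classical
  have hdim : finrank (ZMod 2) (Fin (8 * m) ⊕ Fin (8 * m) → ZMod 2) = 16 * m := by
    rw [Module.finrank_pi, Fintype.card_sum, Fintype.card_fin]
    omega
  have h1 := lower (m := m) (Q := fun j => qc (cj m j)) (B := fun j => Bc (cj m j))
    (fun j => isQ_qc _) (ρ := 2 * m) (fun μ hμ => radical μ hμ) (by rw [hdim]; omega) P h
    (fun z hz => (midZero_iff z).1 (hacc z hz))
  have h2 := card_zeros (m := m) (Q := fun j => qc (cj m j)) (B := fun j => Bc (cj m j))
    (fun j => isQ_qc _) (ρ := 2 * m) (fun μ hμ => radical μ hμ) (by rw [hdim]; omega)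
  rw [hdim] at h1 h2
  have e1 : Nat.card {z // P.Acc z} = (Finset.univ.filter fun z => P.Acc z).card := by
    rw [Nat.card_eq_fintype_card, Fintype.card_subtype]
  have e2 : Nat.card {z // MidZero m z} =
      (Finset.univ.filter fun z : Fin (8 * m) ⊕ Fin (8 * m) → ZMod 2 =>
        ∀ j : Fin m, qc (cj m j) z = 0).card := by
    rw [Nat.card_eq_fintype_card, Fintype.card_subtype]
    congr 1
    ext z
    simp only [Finset.mem_filter, midZero_iff]
  rw [← e1] at h1
  rw [← e2] at h2
  have h3 : (0 : ℝ) < 2 ^ m := by positivity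
  have h4 : (2 : ℝ) ^ m * ((2 : ℝ) ^ m * (Nat.card {z // P.Acc z} : ℝ)) ≤
      2 ^ m * (6 * P.size * (Nat.card {z // MidZero m z} : ℝ)) := by
    have h5 : (P.size : ℝ) * (3 * 2 ^ (16 * m)) ≤
        P.size * (3 * (2 * 2 ^ m * (Nat.card {z // MidZero m z} : ℝ))) := by
      apply mul_le_mul_of_nonneg_left _ (Nat.cast_nonneg _)
      linarith
    nlinarith
  have h5 := le_of_mul_le_mul_left h4 h3
  exact_mod_cast h5

/-- The lower bound for programs which compute the function. -/
theorem exact_bound (m : ℕ) (hm : 0 < m) (P : Prog (Fin (8 * m) ⊕ Fin (8 * m) → ZMod 2))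
    (h : P.ReadOnce ∨ P.BottomReadOnce) (hacc : ∀ z, P.Acc z ↔ MidZero m z) :
    2 ^ m ≤ 6 * P.size := by
  have h1 := one_sided m hm P h fun z hz => (hacc z).1 hz
  have e1 : Nat.card {z // P.Acc z} = Nat.card {z // MidZero m z} :=
    Nat.card_congr (Equiv.subtypeEquivRight hacc)
  rw [e1] at h1
  have h2 : 0 < Nat.card {z // MidZero m z} := by
    have : Nonempty {z // MidZero m z} := by
      refine ⟨⟨0, ?_⟩⟩
      rw [midZero_iff]
      intro j
      simp [qc]
    exact Nat.card_pos
  exact Nat.le_of_mul_le_mul_right h1 h2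

end Pool.Agent.WRL
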