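import Mathlib

set_option autoImplicit false

/-!
# Quadratic functions over the field with two elements: biases and the counting of pairs
-/

namespace Pool.Agent.WRL

open Module

/-! ### Signs -/

/-- The sign. -/
noncomputable def sg (a : ZMod 2) : ℝ := if a = 0 then 1 else -1

lemma zmod_cases (a : ZMod 2) : a = 0 ∨ a = 1 := by
  revert a; decide

lemma sg_zero : sg 0 = 1 := by simp [sg]

lemma sg_one : sg 1 = -1 := by simp [sg]

lemma sg_add (a b : ZMod 2) : sg (a + b) = sg a * sg b := by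
  rcases zmod_cases a with rfl | rfl <;> rcases zmod_cases b with rfl | rfl
  · simp [sg_zero]
  · simp [sg_zero, sg_one]
  · simp [sg_zero, sg_one]
  · have : (1 : ZMod 2) + 1 = 0 := by decide
    rw [this, sg_zero, sg_one]; norm_num

lemma sg_le_one (a : ZMod 2) : sg a ≤ 1 := by
  rcases zmod_cases a with rfl | rfl
  · rw [sg_zero]
  · rw [sg_one]; norm_num

lemma neg_one_le_sg (a : ZMod 2) : -1 ≤ sg a := by
  rcases zmod_cases a with rfl | rfl
  · rw [sg_zero]; norm_num
  · rw [sg_one]

section Sum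

variable {E : Type} [AddCommGroup E] [Module (ZMod 2) E] [Fintype E]

/-- Orthogonality. -/
lemma sum_sg_linear (l : E →ₗ[ZMod 2] ZMod 2) [Decidable (l = 0)] :
    ∑ x, sg (l x) = if l = 0 then (Fintype.card E : ℝ) else 0 := by
  split_ifs with h
  · rw [h]
    simp [sg_zero]
  · obtain ⟨x0, hx0⟩ : ∃ x0, l x0 ≠ 0 := by
      by_contra hcon
      push Not at hcon
      exact h (LinearMap.ext hcon)
    have hx1 : l x0 = 1 := (zmod_cases (l x0)).resolve_left hx0
    have h1 : ∑ x, sg (l (x + x0)) = ∑ x, sg (l x) :=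
      Equiv.sum_comp (Equiv.addRight x0) (fun x => sg (l x))
    have h2 : ∑ x, sg (l (x + x0)) = -∑ x, sg (l x) := by
      rw [← Finset.sum_neg_distrib]
      refine Finset.sum_congr rfl fun x _ => ?_
      rw [map_add, hx1, sg_add, sg_one]
      ring
    linarith

/-- `q` is a quadratic function with the polar form `B`. -/
def IsQ (q : E → ZMod 2) (B : E →ₗ[ZMod 2] Dual (ZMod 2) E) : Prop :=
  ∀ u x, q (u + x) = q u + q x + q 0 + B u x

omit [Fintype E] in
lemma IsQ.zero : IsQ (fun _ : E => (0 : ZMod 2)) 0 := by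
  intro u x
  simp

omit [Fintype E] in
lemma IsQ.add {q q' : E → ZMod 2} {B B' : E →ₗ[ZMod 2] Dual (ZMod 2) E} (h : IsQ q B)
    (h' : IsQ q' B') : IsQ (fun x => q x + q' x) (B + B') := by
  intro u x
  simp only [LinearMap.add_apply]
  rw [h u x, h' u x]
  ring

omit [Fintype E] in
lemma IsQ.smul {q : E → ZMod 2} {B : E →ₗ[ZMod 2] Dual (ZMod 2) E} (c : ZMod 2) (h : IsQ q B) :
    IsQ (fun x => c * q x) (c • B) := by
  intro u x
  simp only [LinearMap.smul_apply, smul_eq_mul]
  rw [h u x]
  ring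

omit [Fintype E] in
lemma IsQ.sum {ι : Type} (s : Finset ι) {q : ι → E → ZMod 2}
    {B : ι → E →ₗ[ZMod 2] Dual (ZMod 2) E} (h : ∀ i, IsQ (q i) (B i)) :
    IsQ (fun x => ∑ i ∈ s, q i x) (∑ i ∈ s, B i) := by
  classical
  induction s using Finset.induction_on with
  | empty => simpa using IsQ.zero
  | insert a s ha ih =>
    have := (h a).add ih
    simp only [Finset.sum_insert ha]
    exact this

omit [Fintype E] in
lemma add_self_zmod (a : ZMod 2) : a + a = 0 := by
  revert a; decide

omit [Fintype E] in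
lemma IsQ.comp {q : E → ZMod 2} {B : E →ₗ[ZMod 2] Dual (ZMod 2) E} (h : IsQ q B)
    (L : E →ₗ[ZMod 2] E) (c : E) : IsQ (fun x => q (L x + c)) (L.dualMap ∘ₗ B ∘ₗ L) := by
  intro u x
  simp only [LinearMap.comp_apply, LinearMap.dualMap_apply, map_zero, map_add, zero_add]
  rw [show L u + L x + c = L u + (L x + c) by abel, h (L u) (L x + c), h (L u) c, map_add]
  have h1 := add_self_zmod (q c)
  have h2 := add_self_zmod ((B (L u)) c)
  have h3 := add_self_zmod (q 0)
  linear_combination (-1 : ZMod 2) * h1 - 0 * h2 - 0 * h3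

/-- The bias of a quadratic function. -/
theorem bias {q : E → ZMod 2} {B : E →ₗ[ZMod 2] Dual (ZMod 2) E} (h : IsQ q B) :
    (∑ x, sg (q x)) ^ 2 ≤ (Fintype.card E : ℝ) * 2 ^ finrank (ZMod 2) (LinearMap.ker B) := by
  classical
  have h1 : (∑ x, sg (q x)) ^ 2 = ∑ u, sg (q u + q 0) * ∑ x, sg (B u x) := by
    rw [sq, Finset.sum_mul_sum]
    have e1 : ∀ x : E, ∑ y, sg (q x) * sg (q y) = ∑ u, sg (q x) * sg (q (u + x)) := fun x =>
      (Equiv.sum_comp (Equiv.addRight x) (fun y => sg (q x) * sg (q y))).symm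
    simp_rw [e1]
    rw [Finset.sum_comm]
    refine Finset.sum_congr rfl fun u _ => ?_
    rw [Finset.mul_sum]
    refine Finset.sum_congr rfl fun x _ => ?_
    rw [← sg_add, ← sg_add, h u x]
    congr 1
    have h1 := add_self_zmod (q x)
    linear_combination h1
  have h2 : (∑ x, sg (q x)) ^ 2 ≤ ∑ u, if B u = 0 then (Fintype.card E : ℝ) else 0 := by
    rw [h1]
    refine Finset.sum_le_sum fun u _ => ?_
    rw [sum_sg_linear]
    split_ifs with hu
    · have := sg_le_one (q u + q 0)
      have h0 : (0 : ℝ) ≤ Fintype.card E := Nat.cast_nonneg _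
      nlinarith
    · simp
  refine h2.trans (le_of_eq ?_)
  rw [← Finset.sum_filter, Finset.sum_const, nsmul_eq_mul, mul_comm]
  congr 1
  have h3 : Fintype.card (LinearMap.ker B) = 2 ^ finrank (ZMod 2) (LinearMap.ker B) := by
    rw [Module.card_eq_pow_finrank (K := ZMod 2), ZMod.card]
  have h4 : (Finset.univ.filter fun u => B u = 0).card = Fintype.card (LinearMap.ker B) := by
    rw [Fintype.card_subtype]
    congr 1
    ext u
    simp [LinearMap.mem_ker]
  rw [h4, h3]
  push_cast
  rfl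

end Sum

/-! ### Dimensions of kernels -/

section Rank

variable {E F H : Type} [AddCommGroup E] [Module (ZMod 2) E] [FiniteDimensional (ZMod 2) E]
  [AddCommGroup F] [Module (ZMod 2) F] [FiniteDimensional (ZMod 2) F]
  [AddCommGroup H] [Module (ZMod 2) H]

/-- A general estimate: if `f` maps `K` into `S`, then the dimension of `K` is at most the sum of
the dimensions of `S` and of a space `T` which contains the intersection of `K` with the kernel. -/
lemma finrank_le_of_map (f : E →ₗ[ZMod 2] F) (K T : Submodule (ZMod 2) E)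
    (S : Submodule (ZMod 2) F) (h1 : ∀ x ∈ K, f x ∈ S) (h2 : ∀ x ∈ K, f x = 0 → x ∈ T) :
    finrank (ZMod 2) K ≤ finrank (ZMod 2) T + finrank (ZMod 2) S := by
  have h3 := LinearMap.finrank_range_add_finrank_ker (f.domRestrict K)
  have h4 : finrank (ZMod 2) (LinearMap.range (f.domRestrict K)) ≤ finrank (ZMod 2) S := by
    apply Submodule.finrank_mono
    rintro _ ⟨x, rfl⟩
    exact h1 x x.2
  have h5 : finrank (ZMod 2) (LinearMap.ker (f.domRestrict K)) ≤ finrank (ZMod 2) T := by
    rw [← Submodule.finrank_map_subtype_eq]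
    apply Submodule.finrank_mono
    rintro _ ⟨x, hx, rfl⟩
    exact h2 x x.2 hx
  omega

lemma finrank_ker_comp (f : E →ₗ[ZMod 2] F) (g : F →ₗ[ZMod 2] H) :
    finrank (ZMod 2) (LinearMap.ker (g ∘ₗ f)) ≤
      finrank (ZMod 2) (LinearMap.ker f) + finrank (ZMod 2) (LinearMap.ker g) :=
  finrank_le_of_map f _ _ _ (fun _ hx => hx) (fun _ _ hx => hx)

lemma finrank_ker_dualMap (L : E →ₗ[ZMod 2] E) :
    finrank (ZMod 2) (LinearMap.ker L.dualMap) = finrank (ZMod 2) (LinearMap.ker L) := by
  have h1 := LinearMap.finrank_range_add_finrank_ker L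
  have h2 := LinearMap.finrank_range_add_finrank_ker L.dualMap
  have h3 := LinearMap.finrank_range_dualMap_eq_finrank_range (f := L)
  have h4 : finrank (ZMod 2) (Dual (ZMod 2) E) = finrank (ZMod 2) E := Subspace.dual_finrank_eq
  omega

/-- The radical of the form `B (L u) (L x)`. -/
lemma rank_one (L : E →ₗ[ZMod 2] E) (B : E →ₗ[ZMod 2] Dual (ZMod 2) E) :
    finrank (ZMod 2) (LinearMap.ker (L.dualMap ∘ₗ B ∘ₗ L)) ≤
      2 * finrank (ZMod 2) (LinearMap.ker L) + finrank (ZMod 2) (LinearMap.ker B) := by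
  have h1 := finrank_ker_comp (B ∘ₗ L) L.dualMap
  have h2 := finrank_ker_comp L B
  have h3 := finrank_ker_dualMap L
  omega

/-- The radical of the form `B u x + B' (L u) (L x)`. -/
lemma rank_two (L : E →ₗ[ZMod 2] E) (B B' : E →ₗ[ZMod 2] Dual (ZMod 2) E) :
    finrank (ZMod 2) (LinearMap.ker (B + L.dualMap ∘ₗ B' ∘ₗ L)) + finrank (ZMod 2) (LinearMap.ker L)
      ≤ finrank (ZMod 2) E + finrank (ZMod 2) (LinearMap.ker B) := by
  have h1 := LinearMap.finrank_range_add_finrank_ker L
  have h2 := finrank_le_of_map L (LinearMap.ker (B + L.dualMap ∘ₗ B' ∘ₗ L)) (LinearMap.ker B)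
    (LinearMap.range L) (fun x _ => ⟨x, rfl⟩) (by
      intro x hx hL
      rw [LinearMap.mem_ker] at hx ⊢
      rw [LinearMap.add_apply, LinearMap.comp_apply, LinearMap.comp_apply, hL, map_zero, map_zero,
        add_zero] at hx
      exact hx)
  omega

end Rank

end Pool.Agent.WRL
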