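import Pool.Agent.WRL.Defs

set_option autoImplicit false

/-!
# The complement has small ordinary read-once programs
-/

namespace Pool.Agent.WRL

open Finset

/-- the nodes -/
abbrev UNode (m : ℕ) : Type := Bool ⊕ (Fin m × Fin (8 * m + 1) × ZMod 2 × Bool)

/-- an inner node -/
def nd {m : ℕ} (j : Fin m) (a : ℕ) (h : a < 8 * m + 1) (s : ZMod 2) (f : Bool) : UNode m :=
  Sum.inr (j, ⟨a, h⟩, s, f)

lemma ub1 {m : ℕ} {j : Fin m} {a : ℕ} (ha : a ≤ 7 * m + j) : a < 8 * m := by
  have := j.2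
  omega

/-- the edges -/
inductive UEdge (m : ℕ) : UNode m → UNode m →
    Option (Module.Dual (ZMod 2) (Fin (8 * m) ⊕ Fin (8 * m) → ZMod 2) × ZMod 2) → Prop
  | enter (j : Fin m) : UEdge m (Sum.inl false) (nd j 0 (Nat.succ_pos _) 0 false) none
  | zero (j : Fin m) (a : ℕ) (ha : a ≤ 7 * m + j) (s : ZMod 2) :
      UEdge m (nd j a (Nat.lt_succ_of_lt (ub1 ha)) s false)
        (nd j (a + 1) (Nat.succ_lt_succ (ub1 ha)) s false)
        (some (LinearMap.proj (Sum.inl ⟨a, ub1 ha⟩), 0))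
  | one (j : Fin m) (a : ℕ) (ha : a ≤ 7 * m + j) (s : ZMod 2) :
      UEdge m (nd j a (Nat.lt_succ_of_lt (ub1 ha)) s false)
        (nd j a (Nat.lt_succ_of_lt (ub1 ha)) s true)
        (some (LinearMap.proj (Sum.inl ⟨a, ub1 ha⟩), 1))
  | snd (j : Fin m) (a : ℕ) (ha : a ≤ 7 * m + j) (s b : ZMod 2) :
      UEdge m (nd j a (Nat.lt_succ_of_lt (ub1 ha)) s true)
        (nd j (a + 1) (Nat.succ_lt_succ (ub1 ha)) (s + b) false)
        (some (LinearMap.proj (Sum.inr ⟨7 * m + j - a, ub1 (Nat.sub_le _ _)⟩), b))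
  | leave (j : Fin m) :
      UEdge m (nd j (7 * m + j + 1) (Nat.succ_lt_succ (ub1 le_rfl)) 1 false) (Sum.inl true) none

/-- the program -/
def uprog (m : ℕ) : Prog (Fin (8 * m) ⊕ Fin (8 * m) → ZMod 2) where
  V := UNode m
  fin := inferInstance
  start := Sum.inl false
  acc := Sum.inl true
  edge := UEdge m

lemma uprog_size (m : ℕ) : (uprog m).size = 4 * m * (8 * m + 1) + 2 := by
  show Fintype.card (UNode m) = _
  rw [Fintype.card_sum, Fintype.card_prod, Fintype.card_prod, Fintype.card_prod, Fintype.card_fin,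
    Fintype.card_fin, Fintype.card_bool, ZMod.card]
  ring

/-- the level of an inner node -/
def lev (a : ℕ) (f : Bool) : ℕ := 2 * a + if f = true then 1 else 0

lemma ureach {m : ℕ} {v w : UNode m} {j : Fin m} {a : ℕ} {h : a < 8 * m + 1} {s : ZMod 2}
    {f : Bool} (hr : (uprog m).Reach v w) (hv : v = nd j a h s f) : w = Sum.inl true ∨
      ∃ (a' : ℕ) (h' : a' < 8 * m + 1) (s' : ZMod 2) (f' : Bool), w = nd j a' h' s' f' ∧
        lev a f ≤ lev a' f' := by
  unfold Prog.Reach at hr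
  induction hr with
  | refl => exact Or.inr ⟨a, h, s, f, hv, le_refl _⟩
  | @tail u w _ hstep ih =>
    obtain ⟨lab, hlab⟩ := hstep
    change UEdge m u w lab at hlab
    rcases ih with hu | ⟨a', h', s', f', hu, hle⟩
    · subst hu
      cases hlab
    · cases hlab with
      | enter j => cases hu
      | zero j' a'' ha s'' =>
        have h1 := Sum.inr.inj hu
        simp only [Prod.mk.injEq, Fin.mk.injEq] at h1
        obtain ⟨rfl, rfl, rfl, rfl⟩ := h1
        refine Or.inr ⟨_, _, _, _, rfl, ?_⟩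
        unfold lev at hle ⊢
        simp at hle ⊢
        omega
      | one j' a'' ha s'' =>
        have h1 := Sum.inr.inj hu
        simp only [Prod.mk.injEq, Fin.mk.injEq] at h1
        obtain ⟨rfl, rfl, rfl, rfl⟩ := h1
        refine Or.inr ⟨_, _, _, _, rfl, ?_⟩
        unfold lev at hle ⊢
        simp at hle ⊢
        omega
      | snd j' a'' ha s'' b =>
        have h1 := Sum.inr.inj hu
        simp only [Prod.mk.injEq, Fin.mk.injEq] at h1
        obtain ⟨rfl, rfl, rfl, rfl⟩ := h1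
        refine Or.inr ⟨_, _, _, _, rfl, ?_⟩
        unfold lev at hle ⊢
        simp at hle ⊢
        omega
      | leave j => exact Or.inl rfl

/-- a labelled edge -/
lemma ulabel {m : ℕ} {u w : UNode m}
    {l : Module.Dual (ZMod 2) (Fin (8 * m) ⊕ Fin (8 * m) → ZMod 2)} {b : ZMod 2}
    (h : UEdge m u w (some (l, b))) : ∃ (j : Fin m) (a a' : ℕ) (ha : a ≤ 7 * m + j)
      (h' : a' < 8 * m + 1) (s s' : ZMod 2) (f f' : Bool),
      u = nd j a (Nat.lt_succ_of_lt (ub1 ha)) s f ∧ w = nd j a' h' s' f' ∧ lev a f < lev a' f' ∧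
      ((f = false ∧ l = LinearMap.proj (Sum.inl ⟨a, ub1 ha⟩)) ∨
        (f = true ∧ l = LinearMap.proj (Sum.inr ⟨7 * m + j - a, ub1 (Nat.sub_le _ _)⟩))) := by
  cases h with
  | zero j a ha s =>
    exact ⟨j, a, a + 1, ha, _, s, s, false, false, rfl, rfl, by unfold lev; simp,
      Or.inl ⟨rfl, rfl⟩⟩
  | one j a ha s =>
    exact ⟨j, a, a, ha, _, s, s, false, true, rfl, rfl, by unfold lev; simp,
      Or.inl ⟨rfl, rfl⟩⟩
  | snd j a ha s b =>
    exact ⟨j, a, a + 1, ha, _, s, s + b, true, false, rfl, rfl, by unfold lev; simp; omega,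
      Or.inr ⟨rfl, rfl⟩⟩

lemma usep {m : ℕ} {u w u' w' : UNode m}
    {l l' : Module.Dual (ZMod 2) (Fin (8 * m) ⊕ Fin (8 * m) → ZMod 2)} {b b' : ZMod 2}
    (h : UEdge m u w (some (l, b))) (hr : (uprog m).Reach w u') (h' : UEdge m u' w' (some (l', b'))) :
    ∃ i i', l = LinearMap.proj i ∧ l' = LinearMap.proj i' ∧ i ≠ i' := by
  obtain ⟨j, a, a₁, ha, h₁, s, s₁, f, f₁, hu, hw, hlev, hl⟩ := ulabel h
  obtain ⟨j', a', a₁', ha', h₁', s', s₁', f', f₁', hu', hw', hlev', hl'⟩ := ulabel h'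
  rcases ureach hr hw with h2 | ⟨a'', h'', s'', f'', h2, hle⟩
  · rw [h2] at hu'
    cases hu'
  · have h3 := Sum.inr.inj (hu'.symm.trans h2)
    simp only [Prod.mk.injEq, Fin.mk.injEq] at h3
    obtain ⟨rfl, rfl, rfl, rfl⟩ := h3
    rcases hl with ⟨rfl, rfl⟩ | ⟨rfl, rfl⟩
    · rcases hl' with ⟨rfl, rfl⟩ | ⟨rfl, rfl⟩
      · refine ⟨_, _, rfl, rfl, ?_⟩
        intro he
        have := Sum.inl.inj he
        rw [Fin.mk.injEq] at this
        subst this
        omega
      · exact ⟨_, _, rfl, rfl, by simp⟩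
    · rcases hl' with ⟨rfl, rfl⟩ | ⟨rfl, rfl⟩
      · exact ⟨_, _, rfl, rfl, by simp⟩
      · refine ⟨_, _, rfl, rfl, ?_⟩
        intro he
        have := Sum.inr.inj he
        rw [Fin.mk.injEq] at this
        have h4 : a = a' := by omega
        subst h4
        omega

lemma span_vanish {ι : Type} [DecidableEq ι] {S : Set (Module.Dual (ZMod 2) (ι → ZMod 2))} {i : ι}
    (h : ∀ l ∈ S, ∃ i', l = LinearMap.proj i' ∧ i ≠ i') :
    (LinearMap.proj i : Module.Dual (ZMod 2) (ι → ZMod 2)) ∉ Submodule.span (ZMod 2) S := by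
  intro hmem
  have key : ∀ l ∈ Submodule.span (ZMod 2) S, l (Pi.single i 1) = 0 := by
    intro l hl
    induction hl using Submodule.span_induction with
    | mem l hl =>
      obtain ⟨i', rfl, hne⟩ := h l hl
      show (Pi.single i (1 : ZMod 2) : ι → ZMod 2) i' = 0
      exact Pi.single_eq_of_ne hne.symm 1
    | zero => rfl
    | add l l' _ _ h1 h2 => rw [LinearMap.add_apply, h1, h2, add_zero]
    | smul c l _ h1 => rw [LinearMap.smul_apply, h1, smul_zero]
  have h1 := key _ hmem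
  have h2 : (Pi.single i (1 : ZMod 2) : ι → ZMod 2) i = 0 := h1
  rw [Pi.single_eq_same] at h2
  exact one_ne_zero h2

lemma uprog_readOnce (m : ℕ) : (uprog m).ReadOnce := by
  intro u w l b _ he hmem
  change UEdge m u w (some (l, b)) at he
  obtain ⟨i, hi⟩ : ∃ i, l = LinearMap.proj i := by
    obtain ⟨j, a, a', ha, h', s, s', f, f', _, _, _, hl⟩ := ulabel he
    rcases hl with ⟨_, hl⟩ | ⟨_, hl⟩
    · exact ⟨_, hl⟩
    · exact ⟨_, hl⟩
  subst hi
  refine span_vanish (i := i) ?_ hmem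
  rintro l' ⟨u', w', b', _, he', hr⟩
  obtain ⟨i₁, i₂, h1, h2, hne⟩ := usep he' hr he
  refine ⟨i₁, h1, ?_⟩
  have h3 : i = i₂ := by
    by_contra hn
    have := LinearMap.congr_fun h2 (Pi.single i 1)
    change (Pi.single i (1 : ZMod 2) : _ → ZMod 2) i = (Pi.single i (1 : ZMod 2) : _ → ZMod 2) i₂
      at this
    rw [Pi.single_eq_same, Pi.single_eq_of_ne (Ne.symm hn)] at this
    exact one_ne_zero this
  rw [h3]
  exact hne.symm

lemma uprog_bottom (m : ℕ) : (uprog m).BottomReadOnce := by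
  intro u w l b he _ hmem
  change UEdge m u w (some (l, b)) at he
  obtain ⟨i, hi⟩ : ∃ i, l = LinearMap.proj i := by
    obtain ⟨j, a, a', ha, h', s, s', f, f', _, _, _, hl⟩ := ulabel he
    rcases hl with ⟨_, hl⟩ | ⟨_, hl⟩
    · exact ⟨_, hl⟩
    · exact ⟨_, hl⟩
  subst hi
  refine span_vanish (i := i) ?_ hmem
  rintro l' ⟨u', w', b', hr, he', _⟩
  obtain ⟨i₁, i₂, h1, h2, hne⟩ := usep he hr he'
  refine ⟨i₂, h2, ?_⟩
  have h3 : i = i₁ := by
    by_contra hn
    have := LinearMap.congr_fun h1 (Pi.single i 1)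
    change (Pi.single i (1 : ZMod 2) : _ → ZMod 2) i = (Pi.single i (1 : ZMod 2) : _ → ZMod 2) i₁
      at this
    rw [Pi.single_eq_same, Pi.single_eq_of_ne (Ne.symm hn)] at this
    exact one_ne_zero this
  rw [h3]
  exact hne

lemma uprog_ordinary (m : ℕ) : (uprog m).Ordinary := by
  intro u w l b he
  obtain ⟨j, a, a', ha, h', s, s', f, f', _, _, _, hl⟩ := ulabel he
  rcases hl with ⟨_, hl⟩ | ⟨_, hl⟩
  · exact ⟨_, hl⟩
  · exact ⟨_, hl⟩

/-! ### acceptance -/

/-- a coefficient of the first polynomial -/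
def cx {m : ℕ} (z : Fin (8 * m) ⊕ Fin (8 * m) → ZMod 2) (a : ℕ) : ZMod 2 :=
  if h : a < 8 * m then z (Sum.inl ⟨a, h⟩) else 0

/-- a coefficient of the second polynomial -/
def cy {m : ℕ} (z : Fin (8 * m) ⊕ Fin (8 * m) → ZMod 2) (a : ℕ) : ZMod 2 :=
  if h : a < 8 * m then z (Sum.inr ⟨a, h⟩) else 0

/-- the sums over initial segments -/
def psum {m : ℕ} (z : Fin (8 * m) ⊕ Fin (8 * m) → ZMod 2) (l a : ℕ) : ZMod 2 :=
  ∑ k ∈ Finset.range a, cx z k * cy z (l - k)

lemma poly_coeff {n : ℕ} (x : Fin n → ZMod 2) (k : ℕ) :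
    (poly x).coeff k = if h : k < n then x ⟨k, h⟩ else 0 := by
  unfold poly
  rw [Polynomial.finsetSum_coeff]
  simp only [Polynomial.coeff_monomial]
  split_ifs with h
  · rw [Finset.sum_eq_single ⟨k, h⟩]
    · simp
    · intro a _ hne
      rw [if_neg]
      intro h1
      exact hne (Fin.ext h1)
    · intro h1
      exact absurd (mem_univ _) h1
  · apply Finset.sum_eq_zero
    intro a _
    rw [if_neg]
    intro h1
    exact h (h1 ▸ a.2)

lemma coeff_psum {m : ℕ} (z : Fin (8 * m) ⊕ Fin (8 * m) → ZMod 2) (l : ℕ) :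
    (poly (fun a => z (Sum.inl a)) * poly (fun a => z (Sum.inr a))).coeff l =
      psum z l (l + 1) := by
  rw [Polynomial.coeff_mul, Finset.Nat.sum_antidiagonal_eq_sum_range_succ_mk]
  apply Finset.sum_congr rfl
  intro k _
  rw [poly_coeff, poly_coeff]
  rfl

lemma zmod_two (x : ZMod 2) : x = 0 ∨ x = 1 := by
  revert x
  decide

/-- soundness -/
lemma urun_sound {m : ℕ} {z : Fin (8 * m) ⊕ Fin (8 * m) → ZMod 2} {v : UNode m}
    (hr : (uprog m).Run z (Sum.inl false) v) : v = Sum.inl false ∨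
      (∃ (j : Fin m) (a : ℕ) (h : a < 8 * m + 1),
        v = nd j a h (psum z (7 * m + j) a) false) ∨
      (∃ (j : Fin m) (a : ℕ) (h : a < 8 * m + 1), cx z a = 1 ∧
        v = nd j a h (psum z (7 * m + j) a) true) ∨
      (v = Sum.inl true ∧ ∃ j : Fin m, psum z (7 * m + j) (7 * m + j + 1) = 1) := by
  unfold Prog.Run at hr
  induction hr with
  | refl => exact Or.inl rfl
  | @tail u w _ hstep ih =>
    obtain ⟨lab, hlab, htest⟩ := hstep
    change UEdge m u w lab at hlab
    cases hlab with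
    | enter j => exact Or.inr (Or.inl ⟨j, 0, Nat.succ_pos _, rfl⟩)
    | zero j a ha s =>
      have h1 : z (Sum.inl ⟨a, ub1 ha⟩) = 0 := htest _ rfl
      have h2 : cx z a = 0 := by
        unfold cx
        rw [dif_pos (ub1 ha)]
        exact h1
      rcases ih with h | ⟨j', a', h', h⟩ | ⟨j', a', h', _, h⟩ | ⟨h, _⟩
      · cases h
      · have h3 := Sum.inr.inj h
        simp only [Prod.mk.injEq, Fin.mk.injEq] at h3
        obtain ⟨rfl, rfl, rfl, _⟩ := h3
        refine Or.inr (Or.inl ⟨j, a + 1, Nat.succ_lt_succ (ub1 ha), ?_⟩)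
        have h4 : psum z (7 * m + j) (a + 1) = psum z (7 * m + j) a := by
          unfold psum
          rw [Finset.sum_range_succ, h2, zero_mul, add_zero]
        rw [h4]
      · have h3 := Sum.inr.inj h
        simp at h3
      · cases h
    | one j a ha s =>
      have h1 : z (Sum.inl ⟨a, ub1 ha⟩) = 1 := htest _ rfl
      have h2 : cx z a = 1 := by
        unfold cx
        rw [dif_pos (ub1 ha)]
        exact h1
      rcases ih with h | ⟨j', a', h', h⟩ | ⟨j', a', h', _, h⟩ | ⟨h, _⟩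
      · cases h
      · have h3 := Sum.inr.inj h
        simp only [Prod.mk.injEq, Fin.mk.injEq] at h3
        obtain ⟨rfl, rfl, rfl, _⟩ := h3
        exact Or.inr (Or.inr (Or.inl ⟨j, a, _, h2, rfl⟩))
      · have h3 := Sum.inr.inj h
        simp at h3
      · cases h
    | snd j a ha s b =>
      have h1 : z (Sum.inr ⟨7 * m + j - a, ub1 (Nat.sub_le _ _)⟩) = b := htest _ rfl
      have h2 : cy z (7 * m + j - a) = b := by
        unfold cy
        rw [dif_pos (ub1 (Nat.sub_le _ _))]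
        exact h1
      rcases ih with h | ⟨j', a', h', h⟩ | ⟨j', a', h', hx, h⟩ | ⟨h, _⟩
      · cases h
      · have h3 := Sum.inr.inj h
        simp at h3
      · have h3 := Sum.inr.inj h
        simp only [Prod.mk.injEq, Fin.mk.injEq] at h3
        obtain ⟨rfl, rfl, rfl, _⟩ := h3
        refine Or.inr (Or.inl ⟨j, a + 1, Nat.succ_lt_succ (ub1 ha), ?_⟩)
        have h4 : psum z (7 * m + j) (a + 1) = psum z (7 * m + j) a + b := by
          unfold psum
          rw [Finset.sum_range_succ, hx, one_mul, h2]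
        rw [h4]
      · cases h
    | leave j =>
      rcases ih with h | ⟨j', a', h', h⟩ | ⟨j', a', h', hx, h⟩ | ⟨h, _⟩
      · cases h
      · have h3 := Sum.inr.inj h
        simp only [Prod.mk.injEq, Fin.mk.injEq] at h3
        obtain ⟨rfl, rfl, h4, _⟩ := h3
        exact Or.inr (Or.inr (Or.inr ⟨rfl, j, h4.symm⟩))
      · have h3 := Sum.inr.inj h
        simp at h3
      · cases h

/-- completeness -/
lemma urun_complete {m : ℕ} (z : Fin (8 * m) ⊕ Fin (8 * m) → ZMod 2) (j : Fin m) :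
    ∀ (a : ℕ) (h : a < 8 * m + 1), a ≤ 7 * m + j + 1 →
      (uprog m).Run z (Sum.inl false) (nd j a h (psum z (7 * m + j) a) false) := by
  intro a
  induction a with
  | zero =>
    intro h _
    apply Relation.ReflTransGen.single
    refine ⟨none, UEdge.enter j, fun t ht => ?_⟩
    cases ht
  | succ a ih =>
    intro h hle
    have ha : a ≤ 7 * m + j := by omega
    have h0 := ih (by omega) (by omega)
    rcases zmod_two (cx z a) with hx | hx
    · have hx' : z (Sum.inl ⟨a, ub1 ha⟩) = 0 := by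
        unfold cx at hx
        rwa [dif_pos (ub1 ha)] at hx
      have h4 : psum z (7 * m + j) (a + 1) = psum z (7 * m + j) a := by
        unfold psum
        rw [Finset.sum_range_succ, hx, zero_mul, add_zero]
      rw [h4]
      refine Relation.ReflTransGen.tail h0 ⟨_, UEdge.zero j a ha _, fun t ht => ?_⟩
      cases ht
      exact hx'
    · have hx' : z (Sum.inl ⟨a, ub1 ha⟩) = 1 := by
        unfold cx at hx
        rwa [dif_pos (ub1 ha)] at hx
      have h4 : psum z (7 * m + j) (a + 1) =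
          psum z (7 * m + j) a + z (Sum.inr ⟨7 * m + j - a, ub1 (Nat.sub_le _ _)⟩) := by
        unfold psum
        rw [Finset.sum_range_succ, hx, one_mul]
        unfold cy
        rw [dif_pos (ub1 (Nat.sub_le _ _))]
      rw [h4]
      refine Relation.ReflTransGen.tail (Relation.ReflTransGen.tail h0
        ⟨_, UEdge.one j a ha _, fun t ht => ?_⟩) ⟨_, UEdge.snd j a ha _ _, fun t ht => ?_⟩
      · cases ht
        exact hx'
      · cases ht
        rfl

theorem exists_upper (m : ℕ) (_hm : 0 < m) : ∃ P : Prog (Fin (8 * m) ⊕ Fin (8 * m) → ZMod 2),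
    P.size ≤ 4 * m * (8 * m + 1) + 2 ∧ P.Ordinary ∧ P.ReadOnce ∧ P.BottomReadOnce ∧
      ∀ z, P.Acc z ↔ ¬ MidZero m z := by
  refine ⟨uprog m, (uprog_size m).le, uprog_ordinary m, uprog_readOnce m, uprog_bottom m,
    fun z => ⟨fun h hz => ?_, fun h => ?_⟩⟩
  · rcases urun_sound h with h | ⟨j', a', h', h⟩ | ⟨j', a', h', _, h⟩ | ⟨_, j, hj⟩
    · cases h
    · cases h
    · cases h
    · have h1 := hz (7 * m + j) (by omega) (by have := j.2; omega)
      rw [coeff_psum, hj] at h1
      exact one_ne_zero h1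
  · unfold MidZero at h
    push Not at h
    obtain ⟨l, hl1, hl2, hl⟩ := h
    rw [coeff_psum] at hl
    have h1 : psum z l (l + 1) = 1 := by
      rcases zmod_two (psum z l (l + 1)) with h | h
      · exact absurd h hl
      · exact h
    obtain ⟨j, rfl⟩ : ∃ j : Fin m, l = 7 * m + j := ⟨⟨l - 7 * m, by omega⟩, by simp; omega⟩
    have h2 := urun_complete z j (7 * m + j + 1) (by have := j.2; omega) le_rfl
    rw [h1] at h2
    refine Relation.ReflTransGen.tail h2 ⟨none, UEdge.leave j, fun t ht => ?_⟩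
    cases ht

end Pool.Agent.WRL
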